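import Pool.Agent.H26.PT.Inn

/-!
Linear forms on the second syzygy of an ascending HNN extension extend.
-/

set_option autoImplicit false
set_option linter.unusedSectionVars false

namespace Pool.Agent.H26.PD.PT

open Pool.Agent.Helper386.PD3 Pool.Agent.H26.PD.PN Pool.Agent.H26.PD.PK Pool.Agent.H26.PD.PS
open scoped Classical

noncomputable section

variable {S : Type} [Group S]

section trunc

variable (χ : S →* Multiplicative ℤ)

/-- the part of degree at least `m` -/
def Tr (m : ℤ) : RR S →+ RR S := addR fun s => if m ≤ (χ s).toAdd then gof s else 0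

theorem Tr_gof (m : ℤ) (s : S) :
    Tr χ m (gof s) = if m ≤ (χ s).toAdd then gof s else 0 := addR_of _ _

theorem Tr_gof_mul (m : ℤ) (s : S) (z : RR S) :
    Tr χ m (gof s * z) = gof s * Tr χ (m - (χ s).toAdd) z := by
  induction z using rr_ind with
  | h1 g =>
    rw [← gof_mul, Tr_gof, Tr_gof, map_mul, toAdd_mul]
    by_cases h : m ≤ (χ s).toAdd + (χ g).toAdd
    · rw [if_pos h, if_pos (by linarith), gof_mul]
    · rw [if_neg h, if_neg (by intro h'; exact h (by linarith)), mul_zero]
  | h2 x y hx hy => rw [mul_add, map_add, map_add, hx, hy, mul_add]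
  | h3 x hx => rw [mul_neg, map_neg, map_neg, hx, mul_neg]

theorem Tr_pf {B : Subgroup S} (hB : B ≤ χ.ker) (m : ℤ) (β : RR B) (z : RR S) :
    Tr χ m (pf B.subtype β * z) = pf B.subtype β * Tr χ m z := by
  induction β using rr_ind with
  | h1 g =>
    have h1 : χ (B.subtype g) = 1 := hB g.2
    rw [pf_of, Tr_gof_mul, h1, toAdd_one, sub_zero]
  | h2 x y hx hy => rw [map_add, add_mul, map_add, hx, hy, add_mul]
  | h3 x hx => rw [map_neg, neg_mul, map_neg, hx, neg_mul]

theorem exists_D (z : RR S) : ∃ D : ℕ, ∀ m : ℤ, (D ≤ m → Tr χ m z = 0) ∧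
    (m ≤ -(D : ℤ) → Tr χ m z = z) := by
  induction z using rr_ind with
  | h1 g =>
    refine ⟨(χ g).toAdd.natAbs + 1, fun m => ⟨fun h => ?_, fun h => ?_⟩⟩
    · rw [Tr_gof, if_neg]
      omega
    · rw [Tr_gof, if_pos]
      omega
  | h2 x y hx hy =>
    obtain ⟨D, hD⟩ := hx
    obtain ⟨E, hE⟩ := hy
    refine ⟨D + E, fun m => ⟨fun h => ?_, fun h => ?_⟩⟩
    · rw [map_add, (hD m).1 (by push_cast at h; omega), (hE m).1 (by push_cast at h; omega),
        add_zero]
    · rw [map_add, (hD m).2 (by push_cast at h; omega), (hE m).2 (by push_cast at h; omega)]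
  | h3 x hx =>
    obtain ⟨D, hD⟩ := hx
    exact ⟨D, fun m => ⟨fun h => by rw [map_neg, (hD m).1 h, neg_zero],
      fun h => by rw [map_neg, (hD m).2 h]⟩⟩

end trunc

section ext

variable (χ : S →* Multiplicative ℤ) (t : S) (B : Subgroup S) {k : ℕ} (b : Fin k → B)

/-- the generators -/
abbrev bS : Fin k → S := fun j => B.subtype (b j)

/-- all the generators -/
abbrev hh : Fin (k + 1) → S := Fin.cons t (bS B b)

/-- the syzygies not involving the stable letter -/
def JJ : LinearMap.ker (bd (bS B b)) →ₗ[RR S] LinearMap.ker (bd (hh t B b)) where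
  toFun x := ⟨Fin.cons 0 x.1, by
    rw [LinearMap.mem_ker, bd_cons]
    simp only [Fin.cons_zero, Fin.cons_succ, zero_mul, zero_add]
    exact x.2⟩
  map_add' x y := by
    apply Subtype.ext
    funext i
    refine Fin.cases ?_ (fun i => ?_) i
    · change (0 : RR S) = 0 + 0
      rw [add_zero]
    · rfl
  map_smul' r x := by
    apply Subtype.ext
    funext i
    refine Fin.cases ?_ (fun i => ?_) i
    · change (0 : RR S) = r * 0
      rw [mul_zero]
    · rfl

theorem JJ_zero (x : LinearMap.ker (bd (bS B b))) : (JJ t B b x).1 0 = 0 := rfl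
theorem JJ_succ (x : LinearMap.ker (bd (bS B b))) (i : Fin k) :
    (JJ t B b x).1 i.succ = x.1 i := rfl

theorem bd_vmap (y : Fin k → RR B) : bd (bS B b) (vmap (pf B.subtype) y) =
    pf B.subtype (bd b y) := by
  rw [bd_apply, bd_apply, map_sum]
  refine Finset.sum_congr rfl fun j _ => ?_
  rw [map_mul, map_sub, pf_of, map_one]
  rfl

/-- extension to the large group ring -/
theorem ext_of_base (g : LinearMap.ker (bd (bS B b)) →ₗ[RR S] RR S) (c : Fin k → RR S)
    (h : ∀ v : LinearMap.ker (bd b), g ⟨vmap (pf B.subtype) v.1, vmap_mem v.2⟩ =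
      ∑ i, pf B.subtype (v.1 i) * c i) (x : LinearMap.ker (bd (bS B b))) :
    g x = ∑ i, x.1 i * c i := by
  have hi : Function.Injective B.subtype := B.subtype_injective
  choose F hF using fun j => left_dec hi (x.1 j)
  let F0 : Finset (S ⧸ B.subtype.range) := Finset.univ.biUnion F
  have h1 : x = ∑ q ∈ F0, gof q.out • (⟨vmap (pf B.subtype) (vpr B.subtype (gof (q.out)⁻¹ • x.1)),
      vmap_mem (vpr_mem hi x.2 _)⟩ : LinearMap.ker (bd (bS B b))) := by
    apply Subtype.ext
    rw [Submodule.coe_sum]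
    funext j
    rw [Finset.sum_apply]
    exact (hF j F0 (Finset.subset_biUnion_of_mem F (Finset.mem_univ j))).symm
  conv_lhs => rw [h1]
  rw [map_sum]
  have h2 : ∀ q : S ⧸ B.subtype.range, g (gof q.out • (⟨vmap (pf B.subtype) (vpr B.subtype (gof (q.out)⁻¹ • x.1)),
      vmap_mem (vpr_mem hi x.2 _)⟩ : LinearMap.ker (bd (bS B b)))) =
      ∑ i, gof q.out * (pf B.subtype (vpr B.subtype (gof (q.out)⁻¹ • x.1) i) * c i) := by
    intro q
    rw [map_smul, smul_eq_mul, h ⟨_, vpr_mem hi x.2 _⟩, Finset.mul_sum]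
  rw [Finset.sum_congr rfl fun q _ => h2 q, Finset.sum_comm]
  refine Finset.sum_congr rfl fun i _ => ?_
  conv_rhs => rw [← hF i F0 (Finset.subset_biUnion_of_mem F (Finset.mem_univ i)), Finset.sum_mul]
  exact Finset.sum_congr rfl fun q _ => by rw [mul_assoc]; rfl

/-- **Extension from the base group.** -/
theorem exists_ext_base (ht : χ t = Multiplicative.ofAdd 1) (hB : ∀ x ∈ B, t * x * t⁻¹ ∈ B)
    (hBχ : B ≤ χ.ker) (hgen : Subgroup.closure (Set.range b) = ⊤)
    (hfin : Module.Finite (RR B) (LinearMap.ker (bd b)))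
    (f : LinearMap.ker (bd (hh t B b)) →ₗ[RR S] RR S) :
    ∃ c : Fin k → RR S, ∀ x : LinearMap.ker (bd (bS B b)), f (JJ t B b x) = ∑ i, x.1 i * c i := by
  obtain ⟨φ, hφ⟩ : ∃ φ : B →* B, ∀ x : B, (φ x : S) = t * x * t⁻¹ := by
    refine ⟨{ toFun := fun x => ⟨t * x * t⁻¹, hB x x.2⟩
              map_one' := ?_
              map_mul' := ?_ }, fun _ => rfl⟩
    · apply Subtype.ext
      change t * 1 * t⁻¹ = 1
      group
    · intro x y
      apply Subtype.ext
      change t * (x * y) * t⁻¹ = (t * x * t⁻¹) * (t * y * t⁻¹)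
      group
  have htφ : ∀ β : RR B, gof t * pf B.subtype β = pf B.subtype (pf φ β) * gof t := by
    intro β
    induction β using rr_ind with
    | h1 g =>
      rw [pf_of, pf_of, pf_of, ← gof_mul, ← gof_mul]
      congr 1
      change t * (g : S) = (φ g : S) * t
      rw [hφ]
      group
    | h2 x y hx hy => rw [map_add, map_add, map_add, mul_add, hx, hy, add_mul]
    | h3 x hx => rw [map_neg, map_neg, map_neg, mul_neg, hx, neg_mul]
  choose β hβ using fun i : Fin k => bd_surj' b hgen (r := gof (φ (b i)) - 1)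
    (by rw [map_sub, eps_of, map_one, sub_self])
  -- the special syzygies
  have hρ : ∀ i : Fin k, (Fin.cons (1 - gof ((φ (b i) : B) : S))
      (Pi.single i (gof t) - vmap (pf B.subtype) (β i)) : Fin (k + 1) → RR S) ∈
      LinearMap.ker (bd (hh t B b)) := by
    intro i
    rw [LinearMap.mem_ker, bd_cons]
    simp only [Fin.cons_zero, Fin.cons_succ]
    have h1 : bd (bS B b) (fun j => (Pi.single i (gof t) - vmap (pf B.subtype) (β i) :
        Fin k → RR S) j) = gof t * (gof (b i : S) - 1) - (gof ((φ (b i) : B) : S) - 1) := by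
      have h3 : bd (bS B b) (Pi.single i (gof t)) = gof t * (gof (b i : S) - 1) := by
        rw [bd_apply, Finset.sum_eq_single i]
        · rw [Pi.single_eq_same]; rfl
        · intro j _ hj
          rw [Pi.single_eq_of_ne hj, zero_mul]
        · intro h; exact absurd (Finset.mem_univ i) h
      have h4 : bd (bS B b) (vmap (pf B.subtype) (β i)) = gof ((φ (b i) : B) : S) - 1 := by
        rw [bd_vmap, hβ, map_sub, pf_of, map_one]
        rfl
      rw [← h3, ← h4, ← map_sub]
    rw [h1, hφ, sub_mul, one_mul, mul_sub, mul_sub, mul_one, mul_one, ← gof_mul, ← gof_mul]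
    have h2 : t * (b i : S) * t⁻¹ * t = t * b i := by group
    rw [h2]
    abel
  let ρ : Fin k → LinearMap.ker (bd (hh t B b)) := fun i => ⟨_, hρ i⟩
  let F : LinearMap.ker (bd b) → RR S := fun v =>
    f (JJ t B b ⟨vmap (pf B.subtype) v.1, vmap_mem v.2⟩)
  have hFadd : ∀ v v', F (v + v') = F v + F v' := by
    intro v v'
    change f _ = f _ + f _
    rw [← map_add, ← map_add]
    congr 2
    apply Subtype.ext
    funext j
    exact map_add (pf B.subtype) _ _
  have hFsmul : ∀ (r : RR B) v, F (r • v) = pf B.subtype r * F v := by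
    intro r v
    change f _ = _ * f _
    rw [← smul_eq_mul, ← map_smul, ← map_smul]
    congr 2
    apply Subtype.ext
    funext j
    exact map_mul (pf B.subtype) _ _
  -- the map `Φ`
  have hΦ : ∀ v : LinearMap.ker (bd b), (fun j => ∑ i, pf φ (v.1 i) * β i j : Fin k → RR B) ∈
      LinearMap.ker (bd b) := by
    intro v
    rw [LinearMap.mem_ker, bd_apply]
    have h1 : ∀ i, ∑ j, pf φ (v.1 i) * (β i j * (gof (b j) - 1)) =
        pf φ (v.1 i) * (gof (φ (b i)) - 1) := by
      intro i
      rw [← Finset.mul_sum, ← hβ i, bd_apply]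
    simp only [Finset.sum_mul, mul_assoc]
    rw [Finset.sum_comm, Finset.sum_congr rfl fun i _ => h1 i]
    have h2 : ∑ i, pf φ (v.1 i) * (gof (φ (b i)) - 1) = pf φ (bd b v.1) := by
      rw [bd_apply, map_sum]
      exact Finset.sum_congr rfl fun i _ => by rw [map_mul, map_sub, pf_of, map_one]
    rw [h2, LinearMap.mem_ker.1 v.2, map_zero]
  let Φ : LinearMap.ker (bd b) → LinearMap.ker (bd b) := fun v => ⟨_, hΦ v⟩
  have hrel : ∀ v : LinearMap.ker (bd b), gof t * F v = F (Φ v) +
      ∑ i, pf B.subtype (pf φ (v.1 i)) * f (ρ i) := by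
    intro v
    have h1 : gof t • JJ t B b ⟨vmap (pf B.subtype) v.1, vmap_mem v.2⟩ =
        JJ t B b ⟨vmap (pf B.subtype) (Φ v).1, vmap_mem (Φ v).2⟩ +
        ∑ i, pf B.subtype (pf φ (v.1 i)) • ρ i := by
      apply Subtype.ext
      rw [Submodule.coe_add, Submodule.coe_sum]
      funext j
      rw [Pi.add_apply, Finset.sum_apply]
      refine Fin.cases ?_ (fun j => ?_) j
      · change gof t * (0 : RR S) = 0 +
          ∑ i, pf B.subtype (pf φ (v.1 i)) * (1 - gof ((φ (b i) : B) : S))
        rw [mul_zero, zero_add]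
        have h2 : ∑ i, pf B.subtype (pf φ (v.1 i)) * (1 - gof ((φ (b i) : B) : S)) =
            -pf B.subtype (pf φ (bd b v.1)) := by
          rw [bd_apply, map_sum, map_sum, ← Finset.sum_neg_distrib]
          refine Finset.sum_congr rfl fun i _ => ?_
          rw [map_mul, map_mul, map_sub, map_sub, pf_of, pf_of, map_one, map_one, ← mul_neg,
            neg_sub]
          rfl
        rw [h2, LinearMap.mem_ker.1 v.2, map_zero, map_zero, neg_zero]
      · change gof t * pf B.subtype (v.1 j) = pf B.subtype (∑ i, pf φ (v.1 i) * β i j) +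
          ∑ i, pf B.subtype (pf φ (v.1 i)) * ((Pi.single i (gof t) : Fin k → RR S) j -
            pf B.subtype (β i j))
        rw [htφ, map_sum]
        simp only [mul_sub, map_mul, Finset.sum_sub_distrib]
        rw [Finset.sum_eq_single j (f := fun i => pf B.subtype (pf φ (v.1 i)) *
          (Pi.single i (gof t) : Fin k → RR S) j)]
        · rw [Pi.single_eq_same]
          abel
        · intro i _ hi
          rw [Pi.single_eq_of_ne (Ne.symm hi), mul_zero]
        · intro h; exact absurd (Finset.mem_univ j) h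
    have h2 := congrArg f h1
    rw [map_smul, map_add, map_sum] at h2
    simp only [map_smul, smul_eq_mul] at h2
    exact h2
  -- bounds
  obtain ⟨D, hD⟩ : ∃ D : ℕ, ∀ v, ∀ m : ℤ, (D ≤ m → Tr χ m (F v) = 0) ∧
      (m ≤ -(D : ℤ) → Tr χ m (F v) = F v) := by
    choose N hN using fun v : LinearMap.ker (bd b) => exists_D χ (F v)
    obtain ⟨s, hs⟩ := hfin.fg_top
    refine ⟨s.sup N, fun v m => ?_⟩
    have hF0 : F 0 = 0 := by
      have := hFadd 0 0
      rw [add_zero] at this
      exact left_eq_add.1 this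
    let U : Submodule (RR B) (LinearMap.ker (bd b)) :=
      { carrier := {v | (((s.sup N : ℕ) : ℤ) ≤ m → Tr χ m (F v) = 0) ∧
          (m ≤ -((s.sup N : ℕ) : ℤ) → Tr χ m (F v) = F v)}
        zero_mem' := ⟨fun _ => by rw [hF0, map_zero], fun _ => by rw [hF0, map_zero]⟩
        add_mem' := by
          rintro x y ⟨hx, hx'⟩ ⟨hy, hy'⟩
          exact ⟨fun h => by rw [hFadd, map_add, hx h, hy h, add_zero],
            fun h => by rw [hFadd, map_add, hx' h, hy' h]⟩
        smul_mem' := by
          rintro r x ⟨hx, hx'⟩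
          exact ⟨fun h => by rw [hFsmul, Tr_pf χ hBχ, hx h, mul_zero],
            fun h => by rw [hFsmul, Tr_pf χ hBχ, hx' h]⟩ }
    have hU : ⊤ ≤ U := by
      rw [← hs, Submodule.span_le]
      intro x hx
      have h1 : ((N x : ℕ) : ℤ) ≤ ((s.sup N : ℕ) : ℤ) := by exact_mod_cast Finset.le_sup hx
      exact ⟨fun h => (hN x m).1 (h1.trans h), fun h => (hN x m).2 (by linarith)⟩
    exact hU (x := v) trivial
  -- descent
  have hdesc : ∀ j : ℕ, ∃ c : Fin k → RR S, ∀ v, Tr χ ((D : ℤ) - j) (F v) =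
      ∑ i, pf B.subtype (v.1 i) * c i := by
    intro j
    induction j with
    | zero =>
      refine ⟨0, fun v => ?_⟩
      rw [(hD v _).1 (by simp)]
      simp
    | succ j ih =>
      obtain ⟨c, hc⟩ := ih
      refine ⟨fun i => gof t⁻¹ * (∑ l, pf B.subtype (β i l) * c l + Tr χ ((D : ℤ) - j) (f (ρ i))),
        fun v => ?_⟩
      have h1 := congrArg (Tr χ ((D : ℤ) - j)) (hrel v)
      rw [Tr_gof_mul, map_add, map_sum, ht, hc] at h1
      simp only [Tr_pf χ hBχ] at h1
      have h2 : ∑ l, pf B.subtype ((Φ v).1 l) * c l =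
          ∑ i, pf B.subtype (pf φ (v.1 i)) * ∑ l, pf B.subtype (β i l) * c l := by
        change ∑ l, pf B.subtype (∑ i, pf φ (v.1 i) * β i l) * c l = _
        simp only [map_sum, map_mul, Finset.sum_mul, Finset.mul_sum, mul_assoc]
        rw [Finset.sum_comm]
      rw [h2, ← Finset.sum_add_distrib] at h1
      have h3 : ((D : ℤ) - (j + 1 : ℕ)) = (D : ℤ) - j - (Multiplicative.ofAdd (1 : ℤ)).toAdd := by
        rw [toAdd_ofAdd]
        push_cast
        ring
      rw [h3]
      have h4 : ∀ z : RR S, gof t⁻¹ * (gof t * z) = z := by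
        intro z
        rw [← mul_assoc, ← gof_mul, inv_mul_cancel, gof_one, one_mul]
      have h5 := congrArg (fun z => gof t⁻¹ * z) h1
      simp only [h4] at h5
      rw [h5, Finset.mul_sum]
      refine Finset.sum_congr rfl fun i _ => ?_
      rw [← mul_add, ← mul_assoc, ← mul_assoc]
      congr 1
      -- `t⁻¹ φ(v) = v t⁻¹`
      have h6 := htφ (v.1 i)
      have h7 := congrArg (fun z => gof t⁻¹ * z * gof t⁻¹) h6
      simp only [h4] at h7
      rw [h7, mul_assoc, mul_assoc, ← gof_mul, mul_inv_cancel, gof_one, mul_one]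
  obtain ⟨c, hc⟩ := hdesc (2 * D)
  refine ⟨c, fun x => ?_⟩
  refine ext_of_base B b (f.comp (JJ t B b)) c (fun v => ?_) x
  rw [← hc v, (hD v _).2 (by push_cast; linarith)]
  rfl

end ext

end

end Pool.Agent.H26.PD.PT
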