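import Pool.Agent.H26.PT.Asc

/-!
The base group of an ascending HNN extension is not one-ended.
-/

set_option autoImplicit false
set_option linter.unusedSectionVars false

namespace Pool.Agent.H26.PD.PT

open Pool.Agent.Helper386.PD3 Pool.Agent.H26.PD.PN Pool.Agent.H26.PD.PK Pool.Agent.H26.PD.PS
open scoped Classical

noncomputable section

variable {S : Type} [Group S]

/-- an additive function with the cocycle property determines the form -/
theorem oed_of_oev {m : ℕ} (h : Fin m → S) (hgen : Subgroup.closure (Set.range h) = ⊤) [Infinite S]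
    (hS : OEV S) : OEd h := by
  intro γ hγ
  have hv : ∀ s : S, ∃ v, bd h v = gof s - 1 := fun s => bd_surj' h hgen
    (by rw [map_sub, eps_of, map_one, sub_self])
  choose v hv using hv
  have hγ' : ∀ x y, bd h x = bd h y → γ x = γ y := by
    intro x y hxy
    rw [← sub_eq_zero, ← map_sub]
    exact hγ _ (by rw [map_sub, hxy, sub_self])
  have htop : Infinite (⊤ : Subgroup S) := Infinite.of_injective
    (fun s : S => (⟨s, trivial⟩ : (⊤ : Subgroup S))) fun a b hab => congrArg Subtype.val hab
  obtain ⟨r, hr⟩ := inner_of_oev (⊤ : Subgroup S) (by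
      rw [← hgen, Subgroup.fg_iff]
      exact ⟨_, rfl, Set.finite_range h⟩) (hS.equiv Subgroup.topEquiv.symm) (fun s => γ (v s)) (by
    intro g _ g' _
    have e : gof g * γ (v g') = γ ((gof g : RR S) • v g') := by rw [map_smul, smul_eq_mul]
    rw [e, ← map_add]
    apply hγ'
    rw [map_add, map_smul, hv, hv, hv, smul_eq_mul, gof_mul, mul_sub, mul_one]
    abel)
  refine ⟨r, fun x => ?_⟩
  have h1 : ∀ z : RR S, eps z = 0 → ∀ y, bd h y = z → γ y = z * r := by
    -- it is enough to treat sums of the elements `s - 1`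
    have h2 : ∀ z : RR S, ∀ y, bd h y = z - (eps z : RR S) → γ y = (z - (eps z : RR S)) * r := by
      intro z
      induction z using rr_ind with
      | h1 s =>
        intro y hy
        rw [eps_of, Int.cast_one] at hy ⊢
        rw [← hr s trivial]
        exact hγ' _ _ (by rw [hy, hv])
      | h2 a b ha hb =>
        intro y hy
        obtain ⟨y1, hy1⟩ := bd_surj' h hgen (r := a - (eps a : RR S)) (by
          rw [map_sub, map_intCast, Int.cast_id, sub_self])
        obtain ⟨y2, hy2⟩ := bd_surj' h hgen (r := b - (eps b : RR S)) (by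
          rw [map_sub, map_intCast, Int.cast_id, sub_self])
        have e : a + b - (eps (a + b) : RR S) = (a - (eps a : RR S)) + (b - (eps b : RR S)) := by
          rw [map_add, Int.cast_add]
          abel
        rw [e, add_mul, ← ha y1 hy1, ← hb y2 hy2, ← map_add]
        apply hγ'
        rw [hy, e, map_add, hy1, hy2]
      | h3 a ha =>
        intro y hy
        have e : -a - (eps (-a) : RR S) = -(a - (eps a : RR S)) := by
          rw [map_neg, Int.cast_neg]
          abel
        rw [e] at hy ⊢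
        have h3 := ha (-y) (by rw [map_neg, hy, neg_neg])
        rw [map_neg] at h3
        rw [neg_mul, ← h3, neg_neg]
    intro z hz y hy
    have h3 := h2 z y (by rw [hy, hz, Int.cast_zero, sub_zero])
    rwa [hz, Int.cast_zero, sub_zero] at h3
  refine h1 _ ?_ x rfl
  rw [bd_apply, map_sum]
  exact Finset.sum_eq_zero fun j _ => by
    rw [map_mul, map_sub, eps_of, map_one, sub_self, mul_zero]

/-- The second syzygy is not a summand. -/
theorem false_of_ext {m : ℕ} (h : Fin m → S) (hgen : Subgroup.closure (Set.range h) = ⊤)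
    (hOE : OEd h) (DBh : DB h) {g : S} (hg : ∀ k : ℤ, k ≠ 0 → g ^ k ≠ 1)
    (hext : ∀ f : LinearMap.ker (bd h) →ₗ[RR S] RR S, ∃ c : Fin m → RR S,
      ∀ w, f w = ∑ i, w.1 i * c i) : False := by
  choose c hc using fun l => hext (DBh.φ l)
  -- the retraction
  let ret : (Fin m → RR S) → (Fin m → RR S) := fun v => ∑ l, (∑ i, v i * c l i) • (DBh.κ l).1
  have hretk : ∀ v, bd h (ret v) = 0 := by
    intro v
    change bd h (∑ l, (∑ i, v i * c l i) • (DBh.κ l).1) = 0
    rw [map_sum]
    exact Finset.sum_eq_zero fun l _ => by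
      rw [map_smul, LinearMap.mem_ker.1 (DBh.κ l).2, smul_zero]
  have hret : ∀ x, bd h x = 0 → ret x = x := by
    intro x hx
    have h1 := congrArg Subtype.val (DBh.hκ ⟨x, hx⟩)
    rw [Submodule.coe_sum] at h1
    conv_rhs => rw [show x = (⟨x, hx⟩ : LinearMap.ker (bd h)).1 from rfl, h1]
    refine Finset.sum_congr rfl fun l _ => ?_
    rw [hc]
    rfl
  let γ : Fin m → ((Fin m → RR S) →ₗ[RR S] RR S) := fun j =>
    { toFun := fun v => v j - ret v j
      map_add' := fun x y => by
        change x j + y j - (∑ l, (∑ i, (x i + y i) * c l i) • (DBh.κ l).1 : Fin m → RR S) j =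
          x j - (∑ l, (∑ i, x i * c l i) • (DBh.κ l).1 : Fin m → RR S) j +
          (y j - (∑ l, (∑ i, y i * c l i) • (DBh.κ l).1 : Fin m → RR S) j)
        simp only [add_mul, Finset.sum_add_distrib, add_smul, Pi.add_apply]
        abel
      map_smul' := fun r x => by
        change r * x j - (∑ l, (∑ i, (r * x i) * c l i) • (DBh.κ l).1 : Fin m → RR S) j =
          r * (x j - (∑ l, (∑ i, x i * c l i) • (DBh.κ l).1 : Fin m → RR S) j)
        rw [mul_sub]
        congr 1
        rw [Finset.sum_apply, Finset.sum_apply, Finset.mul_sum]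
        refine Finset.sum_congr rfl fun l _ => ?_
        rw [Pi.smul_apply, Pi.smul_apply, smul_eq_mul, smul_eq_mul, ← mul_assoc, Finset.mul_sum]
        congr 1
        exact Finset.sum_congr rfl fun i _ => mul_assoc _ _ _ }
  have hγ : ∀ j v, γ j v = v j - ret v j := fun _ _ => rfl
  have h1 : ∀ j, ∃ r, ∀ x, γ j x = bd h x * r := fun j => hOE (γ j) fun x hx => by
    rw [hγ, hret x hx, sub_self]
  choose r hr using h1
  let u : RR S := ∑ j, r j * (gof (h j) - 1)
  have h2 : ∀ x, bd h x = bd h x * u := by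
    intro x
    have h3 : bd h (fun j => γ j x) = bd h x := by
      have e : (fun j => γ j x) = x - ret x := by
        funext j
        rw [hγ]
        rfl
      rw [e, map_sub, hretk, sub_zero]
    conv_lhs => rw [← h3, bd_apply]
    change _ = bd h x * ∑ j, r j * (gof (h j) - 1)
    rw [Finset.mul_sum]
    exact Finset.sum_congr rfl fun j _ => by rw [hr, mul_assoc]
  obtain ⟨x, hx⟩ := bd_surj' h hgen (r := gof g - 1) (by
    rw [map_sub, eps_of, map_one, sub_self])
  have h4 : (gof g - 1) * (1 - u) = 0 := by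
    rw [← hx, mul_sub, mul_one, ← h2, sub_self]
  have h5 := gof_sub_one_inj hg h4
  have h6 : eps (1 - u : RR S) = 1 := by
    have h7 : eps u = 0 := by
      change eps (∑ j, r j * (gof (h j) - 1)) = 0
      rw [map_sum]
      exact Finset.sum_eq_zero fun j _ => by
        rw [map_mul, map_sub, eps_of, map_one, sub_self, mul_zero]
    rw [map_sub, map_one, h7, sub_zero]
  rw [h5, map_zero] at h6
  exact zero_ne_one h6

section ext

variable (χ : S →* Multiplicative ℤ) (t : S) (B : Subgroup S) {k : ℕ} (b : Fin k → B)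

theorem LI_le_range (hgen : Subgroup.closure (Set.range b) = ⊤) :
    LI B ≤ LinearMap.range (bd (bS B b)) := by
  unfold LI
  rw [Submodule.span_le]
  rintro _ ⟨g, hg, rfl⟩
  obtain ⟨y, hy⟩ := bd_surj' b hgen (r := gof ⟨g, hg⟩ - 1) (by
    rw [map_sub, eps_of, map_one, sub_self])
  refine ⟨vmap (pf B.subtype) y, ?_⟩
  rw [bd_vmap, hy, map_sub, pf_of, map_one]
  rfl

/-- **Extension.** -/
theorem exists_ext (ht : χ t = Multiplicative.ofAdd 1) (hB : ∀ x ∈ B, t * x * t⁻¹ ∈ B)
    (hBχ : B ≤ χ.ker) (hgen : Subgroup.closure (Set.range b) = ⊤)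
    (hfin : Module.Finite (RR B) (LinearMap.ker (bd b))) (hacy : Acy t B)
    [Infinite (AA t B)] (hAfg : (AA t B).FG) (hA : OEV (AA t B))
    (f : LinearMap.ker (bd (hh t B b)) →ₗ[RR S] RR S) :
    ∃ c : Fin (k + 1) → RR S, ∀ w, f w = ∑ i, w.1 i * c i := by
  obtain ⟨c0, hc0⟩ := exists_ext_base χ t B b ht hB hBχ hgen hfin f
  let f' : LinearMap.ker (bd (hh t B b)) →ₗ[RR S] RR S :=
    f - (lm (Fin.cons 0 c0)).comp (Submodule.subtype _)
  have hf' : ∀ w, f' w = f w - ∑ i : Fin k, w.1 i.succ * c0 i := by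
    intro w
    change f w - ∑ i, w.1 i * (Fin.cons 0 c0 : Fin (k + 1) → RR S) i = _
    rw [Fin.sum_univ_succ]
    simp only [Fin.cons_zero, Fin.cons_succ, mul_zero, zero_add]
  have hker : ∀ w : LinearMap.ker (bd (hh t B b)), w.1 0 = 0 → f' w = 0 := by
    intro w hw
    have hx : bd (bS B b) (fun i => w.1 i.succ) = 0 := by
      have h1 := LinearMap.mem_ker.1 w.2
      rw [bd_cons, hw, zero_mul, zero_add] at h1
      exact h1
    have h2 : w = JJ t B b ⟨_, hx⟩ := by
      apply Subtype.ext
      funext i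
      refine Fin.cases ?_ (fun i => ?_) i
      · exact hw
      · rfl
    rw [hf']
    conv_lhs => rw [h2, hc0]
    exact sub_self _
  have hker' : ∀ w w' : LinearMap.ker (bd (hh t B b)), w.1 0 = w'.1 0 → f' w = f' w' := by
    intro w w' h
    rw [← sub_eq_zero, ← map_sub]
    apply hker
    change w.1 0 - w'.1 0 = 0
    rw [h, sub_self]
  -- syzygies with given first coordinate
  have hw : ∀ g : AA t B, ∃ w : LinearMap.ker (bd (hh t B b)), w.1 0 = gof (g : S) - 1 := by
    rintro ⟨g, hg, hg'⟩
    have h1 : (gof g - 1 : RR S) * (gof t - 1) ∈ LI B := by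
      have h2 := LI_mem hg' (gof t)
      have h3 := LI_mem hg (1 : RR S)
      have h4 := sub_mem h2 h3
      convert h4 using 1
      rw [one_mul, mul_sub, mul_sub, sub_mul, mul_one, mul_one, one_mul, ← gof_mul, ← gof_mul]
      have e : t * (t⁻¹ * g * t) = g * t := by group
      rw [e]
    obtain ⟨x, hx⟩ := LI_le_range B b hgen h1
    refine ⟨⟨Fin.cons (gof g - 1) (-x), ?_⟩, rfl⟩
    rw [LinearMap.mem_ker, bd_cons]
    simp only [Fin.cons_zero, Fin.cons_succ]
    have h5 : bd (bS B b) (fun i => (-x) i) = -bd (bS B b) x := map_neg _ _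
    rw [h5, hx, add_neg_cancel]
  choose w hw using hw
  let D : S → RR S := fun g => if hg : g ∈ AA t B then f' (w ⟨g, hg⟩) else 0
  have hD : ∀ g (hg : g ∈ AA t B), D g = f' (w ⟨g, hg⟩) := fun g hg => dif_pos hg
  obtain ⟨r, hr⟩ := inner_of_oev (AA t B) hAfg hA D (by
    intro g hg g' hg'
    have e : gof g * f' (w ⟨g', hg'⟩) = f' ((gof g : RR S) • w ⟨g', hg'⟩) := by
      rw [map_smul, smul_eq_mul]
    rw [hD _ hg, hD _ hg', hD _ (mul_mem hg hg'), e, ← map_add]
    apply hker'
    change (w ⟨g * g', _⟩).1 0 = (w ⟨g, hg⟩).1 0 + gof g * (w ⟨g', hg'⟩).1 0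
    rw [hw, hw, hw]
    change (gof (g * g') - 1 : RR S) = (gof g - 1) + gof g * (gof g' - 1)
    rw [gof_mul, mul_sub, mul_one]
    abel)
  have hz : ∀ z ∈ LI (AA t B), ∃ w : LinearMap.ker (bd (hh t B b)), w.1 0 = z ∧ f' w = z * r := by
    intro z hz
    unfold LI at hz
    induction hz using Submodule.span_induction with
    | mem x hx =>
      obtain ⟨g, hg, rfl⟩ := hx
      exact ⟨w ⟨g, hg⟩, hw _, by rw [← hD g hg, hr g hg]⟩
    | zero => exact ⟨0, rfl, by rw [map_zero, zero_mul]⟩
    | add x y _ _ hx hy =>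
      obtain ⟨w1, h1, h1'⟩ := hx
      obtain ⟨w2, h2, h2'⟩ := hy
      refine ⟨w1 + w2, ?_, by rw [map_add, h1', h2', add_mul]⟩
      change w1.1 0 + w2.1 0 = _
      rw [h1, h2]
    | smul a x _ hx =>
      obtain ⟨w1, h1, h1'⟩ := hx
      refine ⟨a • w1, ?_, by rw [map_smul, h1', smul_eq_mul, smul_eq_mul, mul_assoc]⟩
      change a * w1.1 0 = _
      rw [h1]
      rfl
  refine ⟨Fin.cons r c0, fun v => ?_⟩
  have h1 : v.1 0 ∈ LI (AA t B) := by
    apply hacy
    have h2 := LinearMap.mem_ker.1 v.2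
    rw [bd_cons, add_eq_zero_iff_eq_neg] at h2
    rw [h2]
    exact neg_mem (bd_mem_LI _ (fun i => (b i).2) _)
  obtain ⟨w', hw', hw''⟩ := hz _ h1
  have h2 : f' v = v.1 0 * r := by rw [← hw'', hker' v w' hw'.symm]
  rw [hf', sub_eq_iff_eq_add] at h2
  rw [h2, Fin.sum_univ_succ]
  simp only [Fin.cons_zero, Fin.cons_succ]

/-- **The base group is not one-ended.** -/
theorem base_not_oev (ht : χ t = Multiplicative.ofAdd 1) (hB : ∀ x ∈ B, t * x * t⁻¹ ∈ B)
    (hBχ : B ≤ χ.ker) (hgen : Subgroup.closure (Set.range b) = ⊤)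
    (hgenS : Subgroup.closure (Set.range (hh t B b)) = ⊤)
    (hfin : Module.Finite (RR B) (LinearMap.ker (bd b))) (hacy : Acy t B) [Infinite B]
    (hOE : OEd (hh t B b)) (DBh : DB (hh t B b)) : ¬ OEV B := by
  intro hBO
  let e : B ≃* AA t B :=
    { toFun := fun x => ⟨t * x * t⁻¹, hB x x.2, by
        have : t⁻¹ * (t * (x : S) * t⁻¹) * t = x := by group
        rw [this]
        exact x.2⟩
      invFun := fun x => ⟨t⁻¹ * x * t, x.2.2⟩
      left_inv := fun x => by
        apply Subtype.ext
        change t⁻¹ * (t * (x : S) * t⁻¹) * t = x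
        group
      right_inv := fun x => by
        apply Subtype.ext
        change t * (t⁻¹ * (x : S) * t) * t⁻¹ = x
        group
      map_mul' := fun x y => by
        apply Subtype.ext
        change t * ((x : S) * y) * t⁻¹ = (t * x * t⁻¹) * (t * y * t⁻¹)
        group }
  have hinf : Infinite (AA t B) := Infinite.of_injective e e.injective
  have hBfg : Group.FG B := by
    rw [Group.fg_iff]
    exact ⟨_, hgen, Set.finite_range b⟩
  have hAfg' : Group.FG (AA t B) := Group.fg_of_surjective (f := e.toMonoidHom) e.surjective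
  have hAfg : (AA t B).FG := (Group.fg_iff_subgroup_fg _).1 hAfg'
  refine false_of_ext (hh t B b) hgenS hOE DBh (g := t) ?_ (exists_ext χ t B b ht hB hBχ hgen hfin
    hacy hAfg (hBO.equiv e))
  intro n hn h
  have h1 := congrArg χ h
  rw [map_zpow, ht, map_one χ, ← ofAdd_zsmul, ofAdd_eq_one] at h1
  simp at h1
  exact hn h1

end ext

end

end Pool.Agent.H26.PD.PT
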