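import Pool.Agent.H26.PT.Bri

/-!
The theorem of Bieri and Strebel for groups whose second syzygy is finitely generated.
-/

set_option autoImplicit false
set_option linter.unusedSectionVars false

namespace Pool.Agent.H26.PD.PT

open Pool.Agent.Helper386.PD3 Pool.Agent.H26.PD.PN Pool.Agent.H26.PD.PK Pool.Agent.H26.PD.PS
open HNNExtension
open scoped Classical

noncomputable section

variable {S : Type} [Group S]

/-- the symmetric statement -/
theorem Acy.symm {t : S} {B : Subgroup S} (h : Acy t B) : Acy t⁻¹ B := by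
  intro y hy
  have h1 : (-(y * gof t⁻¹)) * (gof t - 1) ∈ LI B := by
    have h2 : (-(y * gof t⁻¹)) * (gof t - 1) = y * (gof t⁻¹ - 1) := by
      rw [neg_mul, mul_sub, mul_assoc, ← gof_mul, inv_mul_cancel, gof_one, mul_one, mul_one,
        mul_sub, mul_one]
      abel
    rw [h2]
    exact hy
  have h3 := h _ h1
  have h4 : ∀ z ∈ LI (AA t B), z * gof t ∈ LI (AA t⁻¹ B) := by
    intro z hz
    unfold LI at hz
    induction hz using Submodule.span_induction with
    | mem x hx =>
      obtain ⟨b, ⟨hb, hb'⟩, rfl⟩ := hx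
      have h5 : (gof b - 1 : RR S) * gof t = gof t * (gof (t⁻¹ * b * t) - 1) := by
        rw [sub_mul, one_mul, mul_sub, mul_one, ← gof_mul, ← gof_mul]
        congr 2
        group
      rw [h5]
      refine LI_mem (mem_AA.2 ⟨hb', ?_⟩) _
      have : t⁻¹⁻¹ * (t⁻¹ * b * t) * t⁻¹ = b := by group
      rw [this]
      exact hb
    | zero => rw [zero_mul]; exact zero_mem _
    | add x y _ _ hx hy => rw [add_mul]; exact add_mem hx hy
    | smul r x _ hx => rw [smul_mul_assoc]; exact Submodule.smul_mem _ _ hx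
  have h5 := h4 _ h3
  rw [neg_mul, mul_assoc, ← gof_mul, inv_mul_cancel, gof_one, mul_one] at h5
  exact (Submodule.neg_mem_iff _).1 h5

section chi

variable (χ : S →* Multiplicative ℤ) (t : S) (ht : χ t = Multiplicative.ofAdd 1)

theorem LI_ker_pf {x : RR S} (hx : x ∈ LI χ.ker) : pf χ x = 0 := by
  unfold LI at hx
  induction hx using Submodule.span_induction with
  | mem x hx =>
    obtain ⟨b, hb, rfl⟩ := hx
    rw [map_sub, pf_of, map_one, MonoidHom.mem_ker.1 hb, gof_one, sub_self]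
  | zero => exact map_zero _
  | add x y _ _ hx hy => rw [map_add, hx, hy, add_zero]
  | smul r x _ hx => rw [smul_eq_mul, map_mul, hx, mul_zero]

include ht in
theorem sub_pf_mem (c : RR S) : c - pf (zpowersHom S t) (pf χ c) ∈ LI χ.ker := by
  induction c using rr_ind with
  | h1 g =>
    rw [pf_of, pf_of]
    have h1 : zpowersHom S t (χ g) = t ^ (χ g).toAdd := rfl
    rw [h1]
    have h2 : (gof g - gof (t ^ (χ g).toAdd) : RR S) =
        gof (t ^ (χ g).toAdd) * (gof ((t ^ (χ g).toAdd)⁻¹ * g) - 1) := by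
      rw [mul_sub, mul_one, ← gof_mul, mul_inv_cancel_left]
    rw [h2]
    refine LI_mem ?_ _
    rw [MonoidHom.mem_ker, map_mul, map_inv, map_zpow, ht, ← ofAdd_zsmul]
    simp
  | h2 x y hx hy =>
    have := add_mem hx hy
    rw [map_add, map_add]
    convert this using 1
    abel
  | h3 x hx =>
    have := neg_mem hx
    rw [map_neg, map_neg]
    convert this using 1
    abel

include ht in
theorem mem_LI_ker {c : RR S} (hc : c * (gof t - 1) ∈ LI χ.ker) : c ∈ LI χ.ker := by
  have h1 := LI_ker_pf χ hc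
  rw [map_mul, map_sub, pf_of, map_one, mul_comm, ht] at h1
  have h2 := gof_sub_one_inj (G := Multiplicative ℤ) (g := Multiplicative.ofAdd 1) (by
    intro k hk h
    rw [← ofAdd_zsmul, ofAdd_eq_one] at h
    simp at h
    exact hk h) h1
  have h3 := sub_pf_mem χ t ht c
  rw [h2, map_zero, sub_zero] at h3
  exact h3

variable {n : ℕ} (a : Fin n → S)

include ht in
theorem mem_Bs (ha : ∀ i, χ (a i) = 1)
    (hgen : Subgroup.closure (Set.range (Fin.cons t a : Fin (n + 1) → S)) = ⊤) (g : S)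
    (hg : χ g = 1) : ∃ N, g ∈ Bs t a N := by
  have h1 : ∀ s : S, ∃ N, s * t ^ (-(χ s).toAdd) ∈ Bs t a N := by
    intro s
    have hs : s ∈ Subgroup.closure (Set.range (Fin.cons t a : Fin (n + 1) → S)) := by
      rw [hgen]; trivial
    induction hs using Subgroup.closure_induction with
    | mem x hx =>
      obtain ⟨i, rfl⟩ := hx
      refine Fin.cases ?_ (fun i => ?_) i
      · refine ⟨0, ?_⟩
        rw [Fin.cons_zero, ht]
        simp
      · refine ⟨0, ?_⟩
        rw [Fin.cons_succ, ha]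
        simpa using mem_Bs_zero t a i
    | one => exact ⟨0, by simp⟩
    | mul x y _ _ hx hy =>
      obtain ⟨N, hN⟩ := hx
      obtain ⟨M, hM⟩ := hy
      refine ⟨N + (M + (χ x).toAdd.natAbs), ?_⟩
      have e : x * y * t ^ (-(χ (x * y)).toAdd) = (x * t ^ (-(χ x).toAdd)) *
          (t ^ (χ x).toAdd * (y * t ^ (-(χ y).toAdd)) * t ^ (-(χ x).toAdd)) := by
        rw [map_mul, toAdd_mul, neg_add, zpow_add]
        have : t ^ (-(χ x).toAdd) * t ^ (-(χ y).toAdd) = t ^ (-(χ y).toAdd) *
            t ^ (-(χ x).toAdd) := by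
          rw [← zpow_add, ← zpow_add, add_comm]
        rw [this]
        group
      rw [e]
      refine mul_mem (Bs_mono t a (by omega) hN) (conj_mem_Bs t a _ (M := M) ?_ hM)
      rw [Int.abs_eq_natAbs]
      exact_mod_cast (by omega : M + (χ x).toAdd.natAbs ≤ N + (M + (χ x).toAdd.natAbs))
    | inv x _ hx =>
      obtain ⟨N, hN⟩ := hx
      refine ⟨N + (χ x).toAdd.natAbs, ?_⟩
      have e : x⁻¹ * t ^ (-(χ x⁻¹).toAdd) =
          (t ^ (-(χ x).toAdd) * (x * t ^ (-(χ x).toAdd)) * t ^ (-(-(χ x).toAdd)))⁻¹ := by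
        rw [map_inv, toAdd_inv]
        group
      rw [e]
      refine inv_mem (conj_mem_Bs t a _ (M := N) ?_ hN)
      rw [abs_neg, Int.abs_eq_natAbs]
      exact_mod_cast le_rfl
  obtain ⟨N, hN⟩ := h1 g
  refine ⟨N, ?_⟩
  rw [hg] at hN
  simpa using hN

theorem AA_mono {B C : Subgroup S} (h : B ≤ C) : AA t B ≤ AA t C :=
  fun _ hx => ⟨h hx.1, h hx.2⟩

include ht in
theorem exists_N (ha : ∀ i, χ (a i) = 1)
    (hgen : Subgroup.closure (Set.range (Fin.cons t a : Fin (n + 1) → S)) = ⊤) {c : RR S}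
    (hc : c ∈ LI χ.ker) : ∃ N, c ∈ LI (AA t (Bs t a N)) := by
  have hmono : ∀ {M N : ℕ}, M ≤ N → LI (AA t (Bs t a M)) ≤ LI (AA t (Bs t a N)) :=
    fun h => LI_mono (AA_mono t (Bs_mono t a h))
  unfold LI at hc
  induction hc using Submodule.span_induction with
  | mem x hx =>
    obtain ⟨b, hb, rfl⟩ := hx
    obtain ⟨N, hN⟩ := mem_Bs χ t ht a ha hgen b hb
    refine ⟨N + 1, ?_⟩
    have := LI_mem (B := AA t (Bs t a (N + 1))) (b := b)
      ⟨Bs_mono t a (by omega) hN, Bs_conj_t' t a hN⟩ 1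
    rwa [one_mul] at this
  | zero => exact ⟨0, zero_mem _⟩
  | add x y _ _ hx hy =>
    obtain ⟨N, hN⟩ := hx
    obtain ⟨M, hM⟩ := hy
    exact ⟨N + M, add_mem (hmono (by omega) hN) (hmono (by omega) hM)⟩
  | smul r x _ hx =>
    obtain ⟨N, hN⟩ := hx
    exact ⟨N, Submodule.smul_mem _ _ hN⟩

theorem bd_cons (v : Fin (n + 1) → RR S) : bd (Fin.cons t a : Fin (n + 1) → S) v =
    v 0 * (gof t - 1) + bd a (fun i => v i.succ) := by
  rw [bd_apply, bd_apply, Fin.sum_univ_succ]
  simp only [Fin.cons_zero, Fin.cons_succ]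

theorem bd_mem_LI {B : Subgroup S} (ha : ∀ i, a i ∈ B) (x : Fin n → RR S) : bd a x ∈ LI B := by
  rw [bd_apply]
  exact Submodule.sum_mem _ fun i _ => LI_mem (ha i) _

include ht in
/-- the first coordinates of the relations -/
theorem exists_N0 (ha : ∀ i, χ (a i) = 1)
    (hgen : Subgroup.closure (Set.range (Fin.cons t a : Fin (n + 1) → S)) = ⊤)
    (hfg : Module.Finite (RR S) (LinearMap.ker (bd (Fin.cons t a : Fin (n + 1) → S)))) :
    ∃ N₀, ∀ N, N₀ ≤ N → ∀ v, bd (Fin.cons t a : Fin (n + 1) → S) v = 0 →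
      v 0 ∈ LI (AA t (Bs t a N)) := by
  have hmono : ∀ {M N : ℕ}, M ≤ N → LI (AA t (Bs t a M)) ≤ LI (AA t (Bs t a N)) :=
    fun h => LI_mono (AA_mono t (Bs_mono t a h))
  have h1 : ∀ v : LinearMap.ker (bd (Fin.cons t a : Fin (n + 1) → S)),
      ∃ N, v.1 0 ∈ LI (AA t (Bs t a N)) := by
    intro v
    apply exists_N χ t ht a ha hgen
    apply mem_LI_ker χ t ht
    have h2 := bd_cons t a v.1
    rw [LinearMap.mem_ker.1 v.2, eq_comm, add_eq_zero_iff_eq_neg] at h2
    rw [h2]
    exact neg_mem (bd_mem_LI a (fun i => ha i) _)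
  choose N hN using h1
  obtain ⟨s, hs⟩ := hfg.fg_top
  refine ⟨s.sup N, fun M hM v hv => ?_⟩
  let U : Submodule (RR S) (LinearMap.ker (bd (Fin.cons t a : Fin (n + 1) → S))) :=
    (LI (AA t (Bs t a M))).comap ((LinearMap.proj 0).comp (Submodule.subtype _))
  have hU : ⊤ ≤ U := by
    rw [← hs, Submodule.span_le]
    intro x hx
    exact hmono ((Finset.le_sup hx).trans hM) (hN x)
  exact hU (x := ⟨v, hv⟩) trivial

/-- the augmentation ideals of the base groups -/
theorem LI_Bs (N : ℕ) : LI (Bs t a N) ≤ LinearMap.range (bd a) ⊔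
    (LI (AA t (Bs t a N))).map (LinearMap.toSpanSingleton (RR S) (RR S) (gof t - 1)) := by
  set W : Submodule (RR S) (RR S) := LinearMap.range (bd a) ⊔
    (LI (AA t (Bs t a N))).map (LinearMap.toSpanSingleton (RR S) (RR S) (gof t - 1)) with hW
  have hq : ∀ q ∈ LI (AA t (Bs t a N)), q * (gof t - 1) ∈ W := fun q hq =>
    Submodule.mem_sup_right ⟨q, hq, rfl⟩
  have hai : ∀ (i : Fin n) (j : ℤ), |j| ≤ N → t ^ j * a i * t ^ (-j) ∈ Bs t a N :=
    fun i j hj => Subgroup.subset_closure ⟨i, j, hj, rfl⟩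
  have hAA : ∀ (i : Fin n) (j : ℤ), |j| ≤ N → |j - 1| ≤ N →
      t ^ j * a i * t ^ (-j) ∈ AA t (Bs t a N) := by
    intro i j h1 h2
    refine ⟨hai i j h1, ?_⟩
    have := hai i (j - 1) h2
    have e : t⁻¹ * (t ^ j * a i * t ^ (-j)) * t = t ^ (j - 1) * a i * t ^ (-(j - 1)) := by
      rw [neg_sub, sub_eq_add_neg, sub_eq_add_neg, zpow_add, zpow_add, zpow_one, zpow_neg_one]
      have : t ^ j * t⁻¹ = t⁻¹ * t ^ j := by
        rw [← zpow_neg_one, ← zpow_add, ← zpow_add, add_comm]
      rw [this]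
      have : t * t ^ (-j) = t ^ (-j) * t := (Commute.self_zpow t (-j)).eq
      rw [this]
      group
    rw [e]
    exact this
  -- one generator
  have hmul : ∀ (i : Fin n) (j l : ℤ), |j - l| ≤ N → |j - l - 1| ≤ N →
      (1 - gof (t ^ j * a i * t ^ (-j))) * gof (t ^ l) ∈ LI (AA t (Bs t a N)) := by
    intro i j l h1 h2
    have h3 := LI_mem (hAA i (j - l) h1 h2) (-gof (t ^ l))
    convert h3 using 1
    rw [sub_mul, one_mul, neg_mul, mul_sub, mul_one, ← gof_mul, ← gof_mul, neg_sub]
    congr 2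
    rw [neg_sub, sub_eq_add_neg, sub_eq_add_neg, zpow_add, zpow_add]
    have : t ^ j * t ^ (-l) = t ^ (-l) * t ^ j := by rw [← zpow_add, ← zpow_add, add_comm]
    rw [this]
    have : t ^ l * t ^ (-j) = t ^ (-j) * t ^ l := by rw [← zpow_add, ← zpow_add, add_comm]
    rw [this]
    group
  have hpos : ∀ (i : Fin n) (j : ℤ) (k : ℕ), (∀ l : ℕ, l < k → |j - l| ≤ N ∧ |j - l - 1| ≤ N) →
      (1 - gof (t ^ j * a i * t ^ (-j))) * (gof (t ^ k) - 1) ∈ W := by
    intro i j k
    induction k with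
    | zero => intro _; rw [pow_zero, gof_one, sub_self, mul_zero]; exact zero_mem _
    | succ k ih =>
      intro h
      have h1 := ih fun l hl => h l (by omega)
      have h2 := hq _ (hmul i j k (h k (by omega)).1 (h k (by omega)).2)
      rw [zpow_natCast] at h2
      have h3 := add_mem h1 h2
      have e : gof (t ^ (k + 1)) = (gof (t ^ k) * gof t : RR S) := by rw [pow_succ, gof_mul]
      convert h3 using 1
      rw [e]
      generalize (1 - gof (t ^ j * a i * t ^ (-j)) : RR S) = u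
      rw [mul_assoc, ← mul_add]
      congr 1
      rw [mul_sub, mul_one]
      abel
  have hneg : ∀ (i : Fin n) (j : ℤ) (k : ℕ), (∀ l : ℕ, l < k → |j + l + 1| ≤ N ∧ |j + l| ≤ N) →
      (1 - gof (t ^ j * a i * t ^ (-j))) * (gof (t ^ (-(k : ℤ))) - 1) ∈ W := by
    intro i j k
    induction k with
    | zero => intro _; rw [Nat.cast_zero, neg_zero, zpow_zero, gof_one, sub_self, mul_zero]
              exact zero_mem _
    | succ k ih =>
      intro h
      have h1 := ih fun l hl => h l (by omega)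
      have h2 := hq _ (hmul i j (-((k + 1 : ℕ) : ℤ)) (by
        have := (h k (by omega)).1
        push_cast
        have e : j - (-((k : ℤ) + 1)) = j + k + 1 := by ring
        rwa [e]) (by
        have := (h k (by omega)).2
        push_cast
        have e : j - (-((k : ℤ) + 1)) - 1 = j + k := by ring
        rwa [e]))
      have h3 := sub_mem h1 h2
      convert h3 using 1
      have e : gof (t ^ (-(k : ℤ))) = (gof (t ^ (-((k + 1 : ℕ) : ℤ))) * gof t : RR S) := by
        rw [← gof_mul]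
        congr 1
        have e1 : t ^ (-((k + 1 : ℕ) : ℤ)) * t = t ^ (-((k + 1 : ℕ) : ℤ)) * t ^ (1 : ℤ) := by
          rw [zpow_one]
        rw [e1, ← zpow_add]
        congr 1
        push_cast
        ring
      rw [e]
      generalize (1 - gof (t ^ j * a i * t ^ (-j)) : RR S) = u
      generalize (gof (t ^ (-((k + 1 : ℕ) : ℤ))) : RR S) = x
      rw [mul_assoc, ← mul_sub]
      congr 1
      rw [mul_sub, mul_one]
      abel
  unfold LI
  rw [Submodule.span_le]
  rintro _ ⟨b, hb, rfl⟩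
  change (gof b - 1 : RR S) ∈ W
  unfold Bs at hb
  induction hb using Subgroup.closure_induction with
  | mem x hx =>
    obtain ⟨i, j, hj, rfl⟩ := hx
    have h1 : (gof (t ^ j) * (gof (a i) - 1) : RR S) ∈ W := by
      refine Submodule.mem_sup_left ⟨Pi.single i (gof (t ^ j)), ?_⟩
      rw [bd_apply, Finset.sum_eq_single i]
      · rw [Pi.single_eq_same]
      · intro k _ hk
        rw [Pi.single_eq_of_ne hk, zero_mul]
      · intro h; exact absurd (Finset.mem_univ i) h
    have h2 : (1 - gof (t ^ j * a i * t ^ (-j))) * (gof (t ^ j) - 1) ∈ W := by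
      obtain ⟨k, rfl | rfl⟩ := j.eq_nat_or_neg
      · have := hpos i k k (by
          intro l hl
          rw [Nat.abs_cast] at hj
          have hj' : k ≤ N := by exact_mod_cast hj
          constructor
          · rw [abs_le]; omega
          · rw [abs_le]; omega)
        rw [zpow_natCast] at this ⊢
        exact this
      · refine hneg i (-k) k ?_
        intro l hl
        rw [abs_neg, Nat.abs_cast] at hj
        have hj' : k ≤ N := by exact_mod_cast hj
        constructor
        · rw [abs_le]; omega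
        · rw [abs_le]; omega
    have h3 := add_mem h1 h2
    convert h3 using 1
    rw [mul_sub, mul_one, sub_mul, one_mul, mul_sub, mul_one, ← gof_mul, ← gof_mul]
    have e : t ^ j * a i * t ^ (-j) * t ^ j = t ^ j * a i := by
      rw [mul_assoc, ← zpow_add, neg_add_cancel, zpow_zero, mul_one]
    rw [e]
    abel
  | one => rw [gof_one, sub_self]; exact zero_mem _
  | mul x y _ _ hx hy =>
    have h1 := add_mem hx (W.smul_mem (gof x) hy)
    convert h1 using 1
    rw [smul_eq_mul, mul_sub, mul_one, gof_mul]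
    abel
  | inv x _ hx =>
    have h1 := neg_mem (W.smul_mem (gof x⁻¹) hx)
    convert h1 using 1
    rw [smul_eq_mul, mul_sub, mul_one, ← gof_mul, inv_mul_cancel, gof_one]
    abel

include ht in
/-- **The graph is a tree.** -/
theorem exists_acy (ha : ∀ i, χ (a i) = 1)
    (hgen : Subgroup.closure (Set.range (Fin.cons t a : Fin (n + 1) → S)) = ⊤)
    (hfg : Module.Finite (RR S) (LinearMap.ker (bd (Fin.cons t a : Fin (n + 1) → S)))) :
    ∃ N₀, ∀ N, N₀ ≤ N → Acy t (Bs t a N) := by
  obtain ⟨N₀, hN₀⟩ := exists_N0 χ t ht a ha hgen hfg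
  refine ⟨N₀, fun N hN y hy => ?_⟩
  obtain ⟨_, ⟨x, rfl⟩, _, ⟨q, hq, rfl⟩, hxq⟩ := Submodule.mem_sup.1 (LI_Bs t a N hy)
  have h1 := hN₀ N hN (Fin.cons (y - q) (-x)) (by
    rw [bd_cons]
    simp only [Fin.cons_zero, Fin.cons_succ]
    have h2 : bd a (fun i => (-x) i) = -bd a x := map_neg _ _
    rw [h2, sub_mul, ← hxq]
    change _ + q * (gof t - 1) - q * (gof t - 1) + _ = 0
    abel)
  rw [Fin.cons_zero] at h1
  have := add_mem h1 hq
  rwa [sub_add_cancel] at this

end chi

end

end Pool.Agent.H26.PD.PT
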