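import Pool.Agent.H26.PS.Fin
import Pool.Agent.H26.PD.BS

/-!
Britton's lemma from the vanishing of the homology of the graph.
-/

set_option autoImplicit false
set_option linter.unusedSectionVars false

namespace Pool.Agent.H26.PD.PT

open Pool.Agent.Helper386.PD3 Pool.Agent.H26.PD.PN Pool.Agent.H26.PD.PK Pool.Agent.H26.PD.PS
open HNNExtension
open scoped Classical

noncomputable section

variable {S : Type} [Group S]

/-- the left ideal generated by the augmentation ideal of a subgroup -/
def LI (B : Subgroup S) : Submodule (RR S) (RR S) :=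
  Submodule.span (RR S) {x | ∃ b ∈ B, x = gof b - 1}

theorem LI_mem {B : Subgroup S} {b : S} (hb : b ∈ B) (r : RR S) : r * (gof b - 1) ∈ LI B := by
  rw [← smul_eq_mul]
  exact (LI B).smul_mem r (Submodule.subset_span ⟨b, hb, rfl⟩)

theorem LI_mono {B C : Subgroup S} (h : B ≤ C) : LI B ≤ LI C := by
  apply Submodule.span_mono
  rintro x ⟨b, hb, rfl⟩
  exact ⟨b, h hb, rfl⟩

theorem addR_gof_mul (F : S → ℤ) (g : S) (x : RR S) :
    addR F (gof g * x) = addR (fun y => F (g * y)) x := by
  induction x using rr_ind with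
  | h1 s => rw [← gof_mul, addR_of, addR_of]
  | h2 x y hx hy => rw [mul_add, map_add, map_add, hx, hy]
  | h3 x hx => rw [mul_neg, map_neg, map_neg, hx]

/-- invariant functions vanish on the left ideal -/
theorem addR_LI {B : Subgroup S} {z : RR S} (hz : z ∈ LI B) :
    ∀ F : S → ℤ, (∀ b ∈ B, ∀ x, F (x * b) = F x) → addR F z = 0 := by
  unfold LI at hz
  induction hz using Submodule.span_induction with
  | mem x hx =>
    intro F hF
    obtain ⟨b, hb, rfl⟩ := hx
    have h1 := hF b hb 1
    rw [map_sub, ← gof_one, addR_of, addR_of, sub_eq_zero, ← h1, one_mul]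
  | zero => intro F _; exact map_zero _
  | add x y _ _ hx hy => intro F hF; rw [map_add, hx F hF, hy F hF, add_zero]
  | smul r x hx ih =>
    intro F hF
    rw [smul_eq_mul]
    induction r using rr_ind with
    | h1 g =>
      rw [addR_gof_mul]
      exact ih _ fun b hb y => by rw [← mul_assoc, hF b hb]
    | h2 a b ha hb => rw [add_mul, map_add, ha, hb, add_zero]
    | h3 a ha => rw [neg_mul, map_neg, ha, neg_zero]

/-- the stabilizer of the edge -/
def AA (t : S) (B : Subgroup S) : Subgroup S where
  carrier := {g | g ∈ B ∧ t⁻¹ * g * t ∈ B}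
  one_mem' := ⟨B.one_mem, by simp⟩
  mul_mem' := by
    rintro a b ⟨ha, ha'⟩ ⟨hb, hb'⟩
    refine ⟨mul_mem ha hb, ?_⟩
    have : t⁻¹ * (a * b) * t = (t⁻¹ * a * t) * (t⁻¹ * b * t) := by group
    rw [this]
    exact mul_mem ha' hb'
  inv_mem' := by
    rintro a ⟨ha, ha'⟩
    refine ⟨inv_mem ha, ?_⟩
    have : t⁻¹ * a⁻¹ * t = (t⁻¹ * a * t)⁻¹ := by group
    rw [this]
    exact inv_mem ha'

theorem mem_AA {t : S} {B : Subgroup S} {g : S} : g ∈ AA t B ↔ g ∈ B ∧ t⁻¹ * g * t ∈ B := Iff.rfl

/-- the homology of the graph vanishes -/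
def Acy (t : S) (B : Subgroup S) : Prop := ∀ y : RR S, y * (gof t - 1) ∈ LI B → y ∈ LI (AA t B)

section brit

variable (t : S) (B : Subgroup S) (L : List (ℤˣ × B))

/-- the vertices of the path -/
def pp (k : ℕ) : S := ((L.take k).map fun z => t ^ ((z.1 : ℤˣ) : ℤ) * (z.2 : S)).prod

theorem pp_succ {k : ℕ} (hk : k < L.length) :
    pp t B L (k + 1) = pp t B L k * (t ^ ((L[k].1 : ℤˣ) : ℤ) * (L[k].2 : S)) := by
  unfold pp
  rw [List.take_succ_eq_append_getElem hk, List.map_append, List.prod_append, List.map_singleton,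
    List.prod_singleton]

/-- the edges of the path -/
def ed (k : ℕ) (hk : k < L.length) : S :=
  if L[k].1 = 1 then pp t B L k else pp t B L k * t⁻¹

variable {t B L}

theorem brit (hA : Acy t B) (hL : L.IsChain fun a b => a.2 ∈ HNNExtension.toSubgroup (A0 t B)
    (A0 t⁻¹ B) a.1 → a.1 = b.1) : ∀ d a b : ℕ, b - a = d → a < b → b ≤ L.length →
      (pp t B L a)⁻¹ * pp t B L b ∉ B := by
  intro d
  induction d using Nat.strong_induction_on with
  | _ d ih =>
    intro a b hd hab hb hmem
    have hred := List.isChain_iff_getElem.1 hL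
    have hne : ∀ (i j : ℕ) (hi : i < L.length) (hj : j < L.length), a ≤ i → i < j → j < b →
        (ed t B L i hi)⁻¹ * ed t B L j hj ∉ AA t B := by
      intro i j hi hj hai hij hjb h
      have hlt : ∀ i' j', a ≤ i' → i' < j' → j' < b → (pp t B L i')⁻¹ * pp t B L j' ∉ B :=
        fun i' j' h1 h2 h3 => ih (j' - i') (by omega) i' j' rfl h2 (by omega)
      rw [mem_AA] at h
      have hs := pp_succ t B L hi
      rcases Int.units_eq_one_or L[i].1 with hεi | hεi <;>
        rcases Int.units_eq_one_or L[j].1 with hεj | hεj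
      · rw [ed, ed, if_pos hεi, if_pos hεj] at h
        exact hlt i j hai hij hjb h.1
      · rw [ed, ed, if_pos hεi, if_neg (by rw [hεj]; decide)] at h
        have h1 : (pp t B L (i + 1))⁻¹ * pp t B L j ∈ B := by
          have h2 := mul_mem (inv_mem (L[i].2).2) h.2
          rw [hs, hεi]
          have h3 : (pp t B L i * (t ^ ((1 : ℤˣ) : ℤ) * (L[i].2 : S)))⁻¹ * pp t B L j =
            (L[i].2 : S)⁻¹ * (t⁻¹ * ((pp t B L i)⁻¹ * (pp t B L j * t⁻¹)) * t) := by
            rw [Units.val_one, zpow_one]
            group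
          rw [h3]
          exact h2
        rcases Nat.lt_or_ge (i + 1) j with hlt' | hge
        · exact hlt (i + 1) j (by omega) hlt' hjb h1
        · obtain rfl : j = i + 1 := by omega
          have h4 : L[i].2 ∈ HNNExtension.toSubgroup (A0 t B) (A0 t⁻¹ B) L[i].1 := by
            rw [hεi]
            change L[i].2 ∈ A0 t B
            rw [mem_A0]
            have h5 : t * (L[i].2 : S) * t⁻¹ = (pp t B L i)⁻¹ * (pp t B L (i + 1) * t⁻¹) := by
              rw [hs, hεi, Units.val_one, zpow_one]
              group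
            rw [h5]
            exact h.1
          have h6 := hred i hj h4
          rw [hεi, hεj] at h6
          exact absurd h6 (by decide)
      · rw [ed, ed, if_neg (by rw [hεi]; decide), if_pos hεj] at h
        have h1 : (pp t B L (i + 1))⁻¹ * pp t B L j ∈ B := by
          have h2 := mul_mem (inv_mem (L[i].2).2) h.1
          rw [hs, hεi]
          have h3 : (pp t B L i * (t ^ (((-1 : ℤˣ) : ℤˣ) : ℤ) * (L[i].2 : S)))⁻¹ * pp t B L j =
            (L[i].2 : S)⁻¹ * ((pp t B L i * t⁻¹)⁻¹ * pp t B L j) := by
            rw [Units.val_neg, Units.val_one, zpow_neg_one]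
            group
          rw [h3]
          exact h2
        rcases Nat.lt_or_ge (i + 1) j with hlt' | hge
        · exact hlt (i + 1) j (by omega) hlt' hjb h1
        · obtain rfl : j = i + 1 := by omega
          have h4 : L[i].2 ∈ HNNExtension.toSubgroup (A0 t B) (A0 t⁻¹ B) L[i].1 := by
            rw [hεi]
            change L[i].2 ∈ A0 t⁻¹ B
            rw [mem_A0, inv_inv]
            have h5 : t⁻¹ * (L[i].2 : S) * t =
                t⁻¹ * ((pp t B L i * t⁻¹)⁻¹ * pp t B L (i + 1)) * t := by
              rw [hs, hεi, Units.val_neg, Units.val_one, zpow_neg_one]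
              group
            rw [h5]
            exact h.2
          have h6 := hred i hj h4
          rw [hεi, hεj] at h6
          exact absurd h6 (by decide)
      · rw [ed, ed, if_neg (by rw [hεi]; decide), if_neg (by rw [hεj]; decide)] at h
        have h1 : t⁻¹ * ((pp t B L i * t⁻¹)⁻¹ * (pp t B L j * t⁻¹)) * t =
            (pp t B L i)⁻¹ * pp t B L j := by group
        rw [h1] at h
        exact hlt i j hai hij hjb h.2
    -- the chain
    let c : ℕ → RR S := fun k => if hk : k < L.length then
      ((L[k].1 : ℤˣ) : ℤ) • gof (ed t B L k hk) else 0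
    have hc : ∀ k (hk : k < L.length), c k * (gof t - 1) - (gof (pp t B L (k + 1)) -
        gof (pp t B L k)) ∈ LI B := by
      intro k hk
      have hck : c k = ((L[k].1 : ℤˣ) : ℤ) • gof (ed t B L k hk) := dif_pos hk
      rw [hck, pp_succ t B L hk, ed]
      have h1 : ∀ u : S, gof u - gof (u * (L[k].2 : S)) ∈ LI B := by
        intro u
        have := LI_mem (L[k].2).2 (-gof u)
        rw [neg_mul, mul_sub, mul_one, ← gof_mul, neg_sub] at this
        exact this
      rcases Int.units_eq_one_or L[k].1 with hε | hε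
      · rw [hε, if_pos rfl, Units.val_one, one_smul, zpow_one]
        have h2 := h1 (pp t B L k * t)
        convert h2 using 1
        rw [mul_sub, mul_one, ← gof_mul, mul_assoc]
        abel
      · rw [hε, if_neg (by decide), Units.val_neg, Units.val_one, neg_smul, one_smul, zpow_neg_one]
        have h2 := h1 (pp t B L k * t⁻¹)
        convert h2 using 1
        rw [neg_mul, mul_sub, mul_one, ← gof_mul, mul_assoc (pp t B L k) t⁻¹ t, inv_mul_cancel,
          mul_one, mul_assoc]
        abel
    have hsum : (∑ k ∈ Finset.Ico a b, c k) * (gof t - 1) -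
        (gof (pp t B L b) - gof (pp t B L a)) ∈ LI B := by
      have h1 : gof (pp t B L b) - gof (pp t B L a) = ∑ k ∈ Finset.Ico a b,
          ((gof (pp t B L (k + 1)) : RR S) - gof (pp t B L k)) :=
        (Finset.sum_Ico_sub (fun k => (gof (pp t B L k) : RR S)) hab.le).symm
      rw [h1, Finset.sum_mul, ← Finset.sum_sub_distrib]
      exact Submodule.sum_mem _ fun k hk => hc k (by
        have := Finset.mem_Ico.1 hk
        omega)
    have hsum' : (∑ k ∈ Finset.Ico a b, c k) * (gof t - 1) ∈ LI B := by
      have h1 : (gof (pp t B L b) - gof (pp t B L a) : RR S) ∈ LI B := by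
        have h2 := LI_mem hmem (gof (pp t B L a))
        rw [mul_sub, mul_one, ← gof_mul, mul_inv_cancel_left] at h2
        exact h2
      have := add_mem hsum h1
      rwa [sub_add_cancel] at this
    have hy := hA _ hsum'
    have haL : a < L.length := by omega
    let F : S → ℤ := fun x => if (ed t B L a haL)⁻¹ * x ∈ AA t B then 1 else 0
    have hF := addR_LI hy F (by
      intro x hx y
      change (if _ then (1 : ℤ) else 0) = if _ then (1 : ℤ) else 0
      rw [← mul_assoc, (AA t B).mul_mem_cancel_right hx])
    rw [map_sum, Finset.sum_eq_single a] at hF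
    · have hca : c a = ((L[a].1 : ℤˣ) : ℤ) • gof (ed t B L a haL) := dif_pos haL
      rw [hca, map_zsmul, addR_of] at hF
      change ((L[a].1 : ℤˣ) : ℤ) • (if _ then (1 : ℤ) else 0) = 0 at hF
      rw [inv_mul_cancel, if_pos (one_mem _), smul_eq_mul, mul_one] at hF
      exact (L[a].1).ne_zero hF
    · intro k hk hka
      have hkI := Finset.mem_Ico.1 hk
      have hkL : k < L.length := by omega
      have hck : c k = ((L[k].1 : ℤˣ) : ℤ) • gof (ed t B L k hkL) := dif_pos hkL
      have hFk : F (ed t B L k hkL) = 0 := if_neg (hne a k haL hkL le_rfl (by omega) hkI.2)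
      rw [hck, map_zsmul, addR_of, hFk, smul_zero]
    · intro h
      exact absurd (Finset.mem_Ico.2 ⟨le_rfl, hab⟩) h

end brit

/-- the homomorphism of the HNN extension is injective -/
theorem pi_inj {t : S} {B : Subgroup S} (hA : Acy t B) : Function.Injective (pi t B) := by
  rw [injective_iff_map_eq_one]
  intro x hx
  obtain ⟨d⟩ := NormalWord.TransversalPair.nonempty B (A0 t B) (A0 t⁻¹ B)
  let w : NormalWord d := NormalWord.equiv (cj t B) d x
  have hw : of w.head * (w.toList.map (fun x => (HNNExtension.t : HN t B) ^ ((x.1 : ℤˣ) : ℤ) *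
      of x.2)).prod = x := (NormalWord.equiv (cj t B) d).symm_apply_apply x
  have hpi : pi t B x = (w.head : S) * pp t B w.toList w.toList.length := by
    rw [← hw, map_mul, pi_of, map_list_prod, List.map_map, pp, List.take_length]
    congr 2
    apply List.map_congr_left
    intro z _
    change pi t B (_ * _) = _
    rw [map_mul, map_zpow, pi_t, pi_of]
  by_cases hL : w.toList.length = 0
  · have h0 : w.toList = [] := List.length_eq_zero_iff.1 hL
    rw [hx, h0] at hpi
    have h1 : (w.head : S) = 1 := by
      simpa [pp] using hpi.symm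
    have h2 : w.head = 1 := Subtype.ext h1
    rw [← hw, h0, h2]
    simp
  · exfalso
    apply brit hA w.chain w.toList.length 0 w.toList.length (by omega) (by omega) le_rfl
    have h0 : pp t B w.toList 0 = 1 := by simp [pp]
    rw [h0, inv_one, one_mul]
    rw [hx] at hpi
    rw [eq_comm, mul_eq_one_iff_inv_eq] at hpi
    rw [← hpi]
    exact inv_mem w.head.2

end

end Pool.Agent.H26.PD.PT
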