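import Pool.Agent.H26.PT.Main
import Pool.Agent.H26.PD.KerFG

/-!
The second syzygy of a group of type `FP_2` is finitely generated, and kernels of homomorphisms
onto the integers.
-/

set_option autoImplicit false
set_option linter.unusedSectionVars false

namespace Pool.Agent.H26.PD.PT

open Pool.Agent.Helper386.PD3 Pool.Agent.H26.PD.PN Pool.Agent.H26.PD.PK Pool.Agent.H26.PD.PS
open scoped Classical Matrix

noncomputable section

variable {G : Type} [Group G] {n : ℕ} {w : G →* ℤˣ} {e0 e1 e2 e3 d0 d1 d2 : MR G n}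

theorem inc_top_surj (r : RR G) : ∃ r' : RR (⊤ : Subgroup G), inc ⊤ r' = r := by
  induction r using rr_ind with
  | h1 g => exact ⟨gof ⟨g, trivial⟩, inc_of _ _⟩
  | h2 x y hx hy =>
    obtain ⟨a, ha⟩ := hx
    obtain ⟨b, hb⟩ := hy
    exact ⟨a + b, by rw [map_add, ha, hb]⟩
  | h3 x hx =>
    obtain ⟨a, ha⟩ := hx
    exact ⟨-a, by rw [map_neg, ha]⟩

theorem fgk_of_low (hL : Low e0 e1 e2 d0 d1) : FGK G := by
  have hGfg : Group.FG G := fg_of_low hL
  have htop : Group.FG (⊤ : Subgroup G) := (Group.fg_iff_subgroup_fg _).2 (Group.fg_def.1 hGfg)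
  obtain ⟨m, h, hgen⟩ := exists_gens (H := (⊤ : Subgroup G)) htop
  obtain ⟨v, g1, k, hv, hg1, hg2, hf, hk, hx⟩ := compare hL h hgen
  refine FGK.equiv Subgroup.topEquiv ⟨m, h, hgen, ?_⟩
  rw [Submodule.fg_def]
  refine ⟨Set.range (fun j => g1 (d1 j)) ∪ Set.range k, (Set.finite_range _).union
    (Set.finite_range _), ?_⟩
  apply le_antisymm
  · rw [Submodule.span_le]
    rintro _ (⟨j, rfl⟩ | ⟨b, rfl⟩)
    · have h1 := hg2 (Pi.single j 1)
      rw [Matrix.single_one_vecMul] at h1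
      exact h1
    · exact hk b
  · intro x hx'
    have hx0 : bd h x = 0 := hx'
    rw [hx x hx0]
    obtain ⟨y, hy⟩ := hL.ex1 (f1 v x) (by
      rw [f1_vecMul]
      exact Finset.sum_congr rfl fun b _ => by rw [hv]) (hf x hx0)
    refine add_mem ?_ (Submodule.sum_mem _ fun b _ => Submodule.smul_mem _ _
      (Submodule.subset_span (Or.inr ⟨b, rfl⟩)))
    rw [← hy, Matrix.vecMul_eq_sum, map_sum]
    refine Submodule.sum_mem _ fun j _ => ?_
    obtain ⟨r, hr⟩ := inc_top_surj (y j)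
    rw [← hr, hg1]
    exact Submodule.smul_mem _ _ (Submodule.subset_span (Or.inl ⟨j, rfl⟩))

theorem ker_fg_or_free {H : Type} [Group H] (hK : FGK H) (hH : NoAsc H)
    (χ : H →* Multiplicative ℤ) (hχ : Function.Surjective χ) :
    χ.ker.FG ∨ ∃ F : FreeGroup (Fin 2) →* χ.ker, Function.Injective F := by
  obtain ⟨t, ht⟩ := hχ (Multiplicative.ofAdd 1)
  rcases bs_fgk hK χ t ht with h | ⟨B, hB, hle, -, -, ⟨h1, h2⟩ | ⟨h1, h2⟩⟩
  · exact Or.inr h
  · exact Or.inl (ker_fg_of_asc hH χ t ht B hB hle h1 h2)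
  · left
    have hk : χ⁻¹.ker = χ.ker := by
      ext x
      rw [MonoidHom.mem_ker, MonoidHom.mem_ker, MonoidHom.inv_apply, inv_eq_one]
    rw [← hk]
    refine ker_fg_of_asc hH χ⁻¹ t⁻¹ ?_ B hB (hk ▸ hle) (fun x hx => ?_) (fun g hg => ?_)
    · rw [MonoidHom.inv_apply, map_inv, inv_inv, ht]
    · rw [inv_inv]
      exact h1 x hx
    · obtain ⟨k, hk'⟩ := h2 g (by
        rw [MonoidHom.inv_apply, inv_eq_one] at hg
        exact hg)
      refine ⟨k, ?_⟩
      rwa [inv_pow, inv_inv]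

end

end Pool.Agent.H26.PD.PT
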