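import Pool.Agent.H26.PT.BSt

/-!
Derivations on a one-ended subgroup with values in the group ring are inner.
-/

set_option autoImplicit false
set_option linter.unusedSectionVars false

namespace Pool.Agent.H26.PD.PT

open Pool.Agent.Helper386.PD3 Pool.Agent.H26.PD.PN Pool.Agent.H26.PD.PK Pool.Agent.H26.PD.PS
open scoped Classical

noncomputable section

/-- almost invariant functions are almost constant -/
def OEV (L : Type) [Group L] : Prop := ∀ (V : Type) (F : L → V),
  (∀ s, {x | F (s * x) ≠ F x}.Finite) → ∃ v, {x | F x ≠ v}.Finite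

theorem OEV.equiv {L L' : Type} [Group L] [Group L'] (e : L ≃* L') (h : OEV L) : OEV L' := by
  intro V F hF
  obtain ⟨v, hv⟩ := h V (fun x => F (e x)) (by
    intro s
    have h1 := (hF (e s)).preimage (f := e) e.injective.injOn
    refine h1.subset ?_
    intro x hx
    change F (e s * e x) ≠ F (e x)
    rw [← map_mul]
    exact hx)
  refine ⟨v, ?_⟩
  have h1 := hv.image e
  refine h1.subset ?_
  intro y hy
  exact ⟨e.symm y, by
    change F (e (e.symm y)) ≠ v
    rw [e.apply_symm_apply]
    exact hy, e.apply_symm_apply y⟩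

variable {S : Type} [Group S]

theorem inner_of_oev (A : Subgroup S) [Infinite A] (hfg : A.FG) (hA : OEV A) (D : S → RR S)
    (hD : ∀ g ∈ A, ∀ g' ∈ A, D (g * g') = D g + gof g * D g') :
    ∃ r : RR S, ∀ g ∈ A, D g = (gof g - 1) * r := by
  have hrpm : ∀ x, x * (rp A x)⁻¹ ∈ A := rp_mem
  have hrpr : ∀ x, rp A (rp A x) = rp A x := by
    intro x
    have h1 : rp A x = (x * (rp A x)⁻¹)⁻¹ * x := by group
    conv_lhs => rw [h1]
    exact rp_left (inv_mem (hrpm x)) x
  -- the function
  obtain ⟨Fn, hFn⟩ : ∃ Fn : S → ℤ, ∀ y, Fn y = (D (y * (rp A y)⁻¹)⁻¹).coeff (rp A y) := ⟨_, fun _ => rfl⟩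
  have hinv : ∀ g ∈ A, ∀ y, Fn (g⁻¹ * y) - Fn y = (D g).coeff y := by
    intro g hg y
    rw [hFn, hFn, rp_left (inv_mem hg)]
    have e : (g⁻¹ * y * (rp A y)⁻¹)⁻¹ = (y * (rp A y)⁻¹)⁻¹ * g := by group
    rw [e, hD _ (inv_mem (hrpm y)) g hg]
    have e2 : (D (y * (rp A y)⁻¹)⁻¹ + gof (y * (rp A y)⁻¹)⁻¹ * D g).coeff (rp A y) =
        (D (y * (rp A y)⁻¹)⁻¹).coeff (rp A y) +
          (gof (y * (rp A y)⁻¹)⁻¹ * D g : RR S).coeff (rp A y) := rfl
    rw [e2, add_sub_cancel_left, coeff_gof_mul, inv_inv]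
    congr 1
    group
  let FF : A → (S → ℤ) := fun h x => Fn (h * rp A x)
  obtain ⟨v, hv⟩ := hA (S → ℤ) FF (by
    intro s
    have hfin : ((D (s : S)⁻¹).coeff.support : Set S).Finite := Finset.finite_toSet _
    have h1 := (hfin.image fun z => z * (rp A z)⁻¹).preimage
      (f := fun h : A => (h : S)) Subtype.coe_injective.injOn
    refine h1.subset ?_
    intro h hh
    have hh' : FF (s * h) ≠ FF h := hh
    obtain ⟨x, hx⟩ := Function.ne_iff.1 hh'
    have h2 := hinv (s : S)⁻¹ (inv_mem s.2) ((h : S) * rp A x)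
    rw [inv_inv] at h2
    refine ⟨(h : S) * rp A x, ?_, ?_⟩
    · rw [Finset.mem_coe, Finsupp.mem_support_iff, ← h2]
      intro h3
      apply hx
      change Fn (((s * h : A) : S) * rp A x) = Fn ((h : S) * rp A x)
      rw [Subgroup.coe_mul, mul_assoc]
      linarith
    · change (h : S) * rp A x * (rp A ((h : S) * rp A x))⁻¹ = h
      rw [rp_left h.2, hrpr, mul_inv_cancel_right])
  -- a value outside the exceptional set
  obtain ⟨h0, hh0⟩ : ∃ h0 : A, FF h0 = v := by
    by_contra hne
    push Not at hne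
    exact Set.infinite_univ (hv.subset fun x _ => hne x)
  have hvA : ∀ a ∈ A, ∀ y, v (a * y) = v y := by
    intro a ha y
    rw [← hh0]
    change Fn _ = Fn _
    rw [rp_left ha]
  -- the cosets
  obtain ⟨T, hT⟩ := hfg
  let X : Set S := ⋃ g ∈ T, rp A '' ((D g).coeff.support : Set S)
  have hX : X.Finite := (Finset.finite_toSet T).biUnion fun g _ => (Finset.finite_toSet _).image _
  have hDX : ∀ g ∈ A, ∀ y, rp A y ∉ X → (D g).coeff y = 0 := by
    intro g hg
    have hg' : g ∈ Subgroup.closure (T : Set S) := by rw [hT]; exact hg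
    have hTA : ∀ x ∈ Subgroup.closure (T : Set S), x ∈ A := fun x hx => hT ▸ hx
    have hone : D 1 = 0 := by
      have := hD 1 A.one_mem 1 A.one_mem
      rw [mul_one, gof_one, one_mul] at this
      exact left_eq_add.1 this
    induction hg' using Subgroup.closure_induction with
    | mem x hx =>
      intro y hy
      by_contra hne
      apply hy
      exact Set.mem_biUnion (x := x) hx ⟨y, Finsupp.mem_support_iff.2 hne, rfl⟩
    | one => intro y _; rw [hone]; rfl
    | mul a b ha hb iha ihb =>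
      intro y hy
      rw [hD a (hTA _ ha) b (hTA _ hb)]
      change (D a).coeff y + (gof a * D b : RR S).coeff y = 0
      rw [coeff_gof_mul, iha (hTA _ ha) y hy, ihb (hTA _ hb) _ (by
        rwa [rp_left (inv_mem (hTA _ ha))]), add_zero]
    | inv a ha iha =>
      intro y hy
      have h1 := hD a⁻¹ (inv_mem (hTA _ ha)) a (hTA _ ha)
      rw [inv_mul_cancel, hone, eq_comm, add_eq_zero_iff_eq_neg] at h1
      rw [h1]
      change -(gof a⁻¹ * D a : RR S).coeff y = 0
      rw [coeff_gof_mul, inv_inv, iha (hTA _ ha) _ (by rwa [rp_left (hTA _ ha)]), neg_zero]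
  have hsupp : (Function.support fun y => Fn y - v y).Finite := by
    have h1 : ((fun p : S × S => p.1 * p.2) ''
        (((fun h : A => (h : S)) '' {x | FF x ≠ v}) ×ˢ X)).Finite := ((hv.image _).prod hX).image _
    refine h1.subset ?_
    intro y hy
    rw [Function.mem_support] at hy
    have hy1 : y * (rp A y)⁻¹ * rp A y = y := by group
    refine ⟨(y * (rp A y)⁻¹, rp A y), ⟨⟨⟨_, hrpm y⟩, ?_, rfl⟩, ?_⟩, hy1⟩
    · intro h2
      apply hy
      have h3 := congrFun h2 y
      change Fn (y * (rp A y)⁻¹ * rp A y) = v y at h3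
      rw [hy1] at h3
      rw [h3, sub_self]
    · by_contra hX'
      apply hy
      have h4 : Fn y = 0 := by
        rw [hFn]
        exact hDX _ (inv_mem (hrpm y)) _ (by rwa [hrpr])
      have h5 : v y = 0 := by
        rw [← hh0]
        change Fn _ = 0
        rw [hFn]
        refine hDX _ (inv_mem (hrpm _)) _ ?_
        rw [hrpr, rp_left h0.2, hrpr]
        exact hX'
      rw [h4, h5, sub_self]
  let r : RR S := MonoidAlgebra.ofCoeff (Finsupp.ofSupportFinite _ hsupp)
  refine ⟨r, fun g hg => ?_⟩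
  apply MonoidAlgebra.coeff_injective
  ext y
  have h1 : ((gof g - 1) * r).coeff y = (gof g * r : RR S).coeff y - r.coeff y := by
    rw [sub_mul, one_mul]
    rfl
  rw [h1, coeff_gof_mul]
  have h2 : ∀ z, r.coeff z = Fn z - v z := fun z => rfl
  rw [h2, h2, hvA _ (inv_mem hg), ← hinv g hg y]
  ring

end

end Pool.Agent.H26.PD.PT
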