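import Pool.Agent.H26.PT.Tits

/-!
Subgroups of infinite index without free subgroups.
-/

set_option autoImplicit false
set_option linter.unusedSectionVars false

namespace Pool.Agent.H26.PD.PT

open Pool.Agent.Helper386.PD3 Pool.Agent.H26.PD.PN Pool.Agent.H26.PD.PK Pool.Agent.H26.PD.PS
open scoped Classical Matrix commutatorElement

noncomputable section

variable {G : Type} [Group G] {n : ℕ} {w : G →* ℤˣ} {e0 e1 e2 e3 d0 d1 d2 : MR G n}

/-- locally indicable groups -/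
def LocInd (A : Type) [Group A] : Prop :=
  ∀ T : Subgroup A, T.FG → T ≠ ⊥ → ∃ χ : T →* Multiplicative ℤ, χ ≠ 1

/-- all finitely generated subgroups of a good subgroup have a finitely generated second syzygy -/
theorem fgk_sub (hF : Full w e0 e1 e2 e3 d0 d1 d2)
    (hex2 : ∀ v, v ᵥ* e2 = v → v ᵥ* d1 = 0 → ∃ u, u ᵥ* d2 = v) (hOE : OE G) [Group.FG G]
    (htf : ∀ g : G, g ≠ 1 → ∀ k : ℕ, 0 < k → g ^ k ≠ 1) (T : Subgroup G) [Infinite (G ⧸ T)]
    (hT : Gd T) (B : Subgroup T) (hB : B.FG) : FGK B := by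
  let B' : Subgroup G := B.map T.subtype
  have hB'le : B' ≤ T := Subgroup.map_subtype_le B
  have : Infinite (G ⧸ B') := infinite_quot hB'le
  let e : B ≃* B' := B.equivMapOfInjective T.subtype T.subtype_injective
  have hBfg : Group.FG B := (Group.fg_iff_subgroup_fg B).2 hB
  have hB'fg : Group.FG B' := Group.fg_of_surjective (f := e.toMonoidHom) e.surjective
  obtain ⟨m, h, hgen⟩ := exists_gens (H := B') hB'fg
  have h1 : Gd (⊤ : Subgroup B') := hT.of_inj ((Subgroup.inclusion hB'le).comp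
    (⊤ : Subgroup B').subtype) ((Subgroup.inclusion_injective hB'le).comp
      (Subgroup.subtype_injective _))
  have h2 := finite_K hF hex2 hOE htf ((Group.fg_iff_subgroup_fg B').1 hB'fg) ⊤ h1 h hgen
  have h3 : FGK B' := ⟨m, h, hgen, Module.Finite.iff_fg.1 h2⟩
  exact h3.equiv e.symm

/-- Finitely generated subgroups without free subgroups are metabelian. -/
theorem metab_fg (hF : Full w e0 e1 e2 e3 d0 d1 d2)
    (hex2 : ∀ v, v ᵥ* e2 = v → v ᵥ* d1 = 0 → ∃ u, u ᵥ* d2 = v) (hOE : OE G) [Group.FG G]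
    (htf : ∀ g : G, g ≠ 1 → ∀ k : ℤ, k ≠ 0 → g ^ k ≠ 1) (T : Subgroup G) [Infinite (G ⧸ T)]
    (hTfg : T.FG) (hT : Gd T) (hno : NoF T)
    (hind : T ≠ ⊥ → ∃ χ : T →* Multiplicative ℤ, χ ≠ 1) (a b c d : T) :
    ⁅a, b⁆ * ⁅c, d⁆ = ⁅c, d⁆ * ⁅a, b⁆ := by
  refine metab ?_ hno (fgk_sub hF hex2 hOE ?_ T hT) (fun m h hgen => projective_ker hF hex2 h hgen)
    ((Group.fg_iff_subgroup_fg T).2 hTfg) ?_ a b c d
  · intro g hg k hk h
    exact htf g (fun h1 => hg (Subtype.ext h1)) k hk (by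
      have := congrArg Subtype.val h
      simpa using this)
  · intro g hg k hk h
    exact htf g hg k (by omega) (by rwa [zpow_natCast])
  · rintro ⟨s, hs⟩
    apply hind
    rintro rfl
    exact hs (Subsingleton.elim _ _)

/-- **The Tits alternative for subgroups of infinite index.** -/
theorem metab_inf (hF : Full w e0 e1 e2 e3 d0 d1 d2)
    (hex2 : ∀ v, v ᵥ* e2 = v → v ᵥ* d1 = 0 → ∃ u, u ᵥ* d2 = v) (hOE : OE G) [Group.FG G]
    (htf : ∀ g : G, g ≠ 1 → ∀ k : ℤ, k ≠ 0 → g ^ k ≠ 1) (N : Subgroup G) [Infinite (G ⧸ N)]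
    (N₀ : Subgroup N) (hG₀ : Gd N₀) (hL : LocInd N₀) (hno : NoF N) (a b c d : N₀) :
    ⁅a, b⁆ * ⁅c, d⁆ = ⁅c, d⁆ * ⁅a, b⁆ := by
  let C : Subgroup N₀ := Subgroup.closure {a, b, c, d}
  have hCfg : C.FG := by
    rw [Subgroup.fg_iff]
    exact ⟨_, rfl, Set.toFinite _⟩
  let i : N₀ →* G := N.subtype.comp N₀.subtype
  have hi : Function.Injective i := N.subtype_injective.comp N₀.subtype_injective
  let T : Subgroup G := C.map i
  let e : C ≃* T := C.equivMapOfInjective i hi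
  have hTN : T ≤ N := by
    rintro _ ⟨x, -, rfl⟩
    exact (x : N).2
  have : Infinite (G ⧸ T) := infinite_quot hTN
  have hC' : Group.FG C := (Group.fg_iff_subgroup_fg C).2 hCfg
  have hT' : Group.FG T := Group.fg_of_surjective (f := e.toMonoidHom) e.surjective
  have hGd : Gd T := hG₀.of_inj (C.subtype.comp e.symm.toMonoidHom)
    (C.subtype_injective.comp e.symm.injective)
  have hind : T ≠ ⊥ → ∃ χ : T →* Multiplicative ℤ, χ ≠ 1 := by
    intro hT0
    have hC0 : C ≠ ⊥ := by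
      intro h
      apply hT0
      change C.map i = ⊥
      rw [h, Subgroup.map_bot]
    obtain ⟨χ, hχ⟩ := hL C hCfg hC0
    refine ⟨χ.comp e.symm.toMonoidHom, ?_⟩
    intro h
    apply hχ
    ext x
    have h1 := congrArg (fun f : T →* Multiplicative ℤ => f (e x)) h
    change χ (e.symm (e x)) = 1 at h1
    rw [e.symm_apply_apply] at h1
    rw [h1]
    rfl
  have h1 := metab_fg hF hex2 hOE htf T ((Group.fg_iff_subgroup_fg T).1 hT') hGd
    (hno.of_inj (Subgroup.inclusion hTN) (Subgroup.inclusion_injective hTN)) hind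
    (e ⟨a, Subgroup.subset_closure (by simp)⟩) (e ⟨b, Subgroup.subset_closure (by simp)⟩)
    (e ⟨c, Subgroup.subset_closure (by simp)⟩) (e ⟨d, Subgroup.subset_closure (by simp)⟩)
  rw [← map_commutatorElement, ← map_commutatorElement, ← map_mul, ← map_mul] at h1
  exact congrArg Subtype.val (e.injective h1)

/-! ## Abelian normal subgroups -/

theorem comm_closure {A : Type} [Group A] {s : Set A} (h : ∀ a ∈ s, ∀ b ∈ s, a * b = b * a)
    {a b : A} (ha : a ∈ Subgroup.closure s) (hb : b ∈ Subgroup.closure s) : a * b = b * a := by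
  have h1 : ∀ a ∈ s, ∀ b ∈ Subgroup.closure s, Commute a b := by
    intro a ha b hb
    induction hb using Subgroup.closure_induction with
    | mem x hx => exact h a ha x hx
    | one => exact Commute.one_right a
    | mul x y _ _ hx hy => exact hx.mul_right hy
    | inv x _ hx => exact hx.inv_right
  have h2 : Commute a b := by
    induction ha using Subgroup.closure_induction with
    | mem x hx => exact h1 x hx b hb
    | one => exact Commute.one_left b
    | mul x y _ _ hx hy => exact hx.mul_left hy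
    | inv x _ hx => exact hx.inv_left
  exact h2

theorem derived_two {A : Type} [Group A]
    (hm : ∀ a b c d : A, ⁅a, b⁆ * ⁅c, d⁆ = ⁅c, d⁆ * ⁅a, b⁆) : derivedSeries A 2 = ⊥ := by
  rw [derivedSeries_succ, derivedSeries_succ, derivedSeries_zero, Subgroup.commutator_eq_bot_iff_le_centralizer]
  intro x hx
  rw [Subgroup.mem_centralizer_iff]
  intro y hy
  rw [Subgroup.commutator_def] at hx
  have hy' : y ∈ (⁅(⊤ : Subgroup A), ⊤⁆ : Subgroup A) := hy
  rw [Subgroup.commutator_def] at hy'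
  refine comm_closure ?_ hy' hx
  rintro _ ⟨x, -, y, -, rfl⟩ _ ⟨z, -, u, -, rfl⟩
  exact hm x y z u

/-- a characteristic abelian subgroup of a virtually metabelian group -/
theorem exists_abelian (htf : ∀ g : G, g ≠ 1 → ∀ k : ℤ, k ≠ 0 → g ^ k ≠ 1) (N : Subgroup G)
    [N.Normal] (hne : N ≠ ⊥) (N₀ : Subgroup N) [N₀.FiniteIndex]
    (hm : ∀ a b c d : N₀, ⁅a, b⁆ * ⁅c, d⁆ = ⁅c, d⁆ * ⁅a, b⁆) :
    ∃ A : Subgroup G, A.Normal ∧ A ≤ N ∧ A ≠ ⊥ ∧ ∀ a ∈ A, ∀ b ∈ A, a * b = b * a := by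
  obtain ⟨r, hr0, hr⟩ : ∃ r : ℕ, r ≠ 0 ∧ ∀ x : N, x ^ r ∈ N₀ := by
    refine ⟨(N₀.index).factorial, Nat.factorial_ne_zero _, fun x => ?_⟩
    obtain ⟨k, hk0, hk1, hk⟩ := Subgroup.exists_pow_mem_of_index_ne_zero
      (Subgroup.FiniteIndex.index_ne_zero (H := N₀)) x
    obtain ⟨q, hq⟩ := Nat.dvd_factorial hk0 hk1
    rw [hq, pow_mul]
    exact pow_mem hk q
  let s : Set G := {x | ∃ y ∈ N, x = y ^ r}
  let M : Subgroup G := Subgroup.closure s
  have hMn : M.Normal := by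
    refine ⟨fun x hx g => ?_⟩
    induction hx using Subgroup.closure_induction with
    | mem x hx =>
      obtain ⟨y, hy, rfl⟩ := hx
      exact Subgroup.subset_closure ⟨g * y * g⁻¹, ‹N.Normal›.conj_mem y hy g, by rw [conj_pow]⟩
    | one => rw [mul_one, mul_inv_cancel]; exact one_mem _
    | mul x y _ _ hx hy =>
      have : g * (x * y) * g⁻¹ = (g * x * g⁻¹) * (g * y * g⁻¹) := by group
      rw [this]
      exact mul_mem hx hy
    | inv x _ hx =>
      have : g * x⁻¹ * g⁻¹ = (g * x * g⁻¹)⁻¹ := by group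
      rw [this]
      exact inv_mem hx
  have hMN₀ : ∀ x ∈ M, ∃ (h : x ∈ N), (⟨x, h⟩ : N) ∈ N₀ := by
    intro x hx
    induction hx using Subgroup.closure_induction with
    | mem x hx =>
      obtain ⟨y, hy, rfl⟩ := hx
      exact ⟨pow_mem hy r, hr ⟨y, hy⟩⟩
    | one => exact ⟨one_mem _, one_mem _⟩
    | mul x y _ _ hx hy =>
      obtain ⟨h1, h2⟩ := hx
      obtain ⟨h3, h4⟩ := hy
      exact ⟨mul_mem h1 h3, mul_mem h2 h4⟩
    | inv x _ hx =>
      obtain ⟨h1, h2⟩ := hx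
      exact ⟨inv_mem h1, inv_mem h2⟩
  have hMN : M ≤ N := fun x hx => (hMN₀ x hx).1
  have hM0 : M ≠ ⊥ := by
    obtain ⟨⟨g, hg⟩, hg1⟩ := (Subgroup.ne_bot_iff_exists_ne_one).1 hne
    intro h
    have h1 : g ^ r ∈ M := Subgroup.subset_closure ⟨g, hg, rfl⟩
    rw [h, Subgroup.mem_bot] at h1
    exact htf g (fun h2 => hg1 (Subtype.ext h2)) r (by exact_mod_cast hr0) (by
      rw [zpow_natCast, h1])
  have hMm : ∀ a ∈ M, ∀ b ∈ M, ∀ c ∈ M, ∀ d ∈ M, ⁅a, b⁆ * ⁅c, d⁆ = ⁅c, d⁆ * ⁅a, b⁆ := by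
    intro a ha b hb c hc d hd
    obtain ⟨ha1, ha2⟩ := hMN₀ a ha
    obtain ⟨hb1, hb2⟩ := hMN₀ b hb
    obtain ⟨hc1, hc2⟩ := hMN₀ c hc
    obtain ⟨hd1, hd2⟩ := hMN₀ d hd
    have h1 := hm ⟨_, ha2⟩ ⟨_, hb2⟩ ⟨_, hc2⟩ ⟨_, hd2⟩
    exact congrArg (fun z : N₀ => ((z : N) : G)) h1
  by_cases hc : ∀ a ∈ M, ∀ b ∈ M, a * b = b * a
  · exact ⟨M, hMn, hMN, hM0, hc⟩
  · refine ⟨⁅M, M⁆, inferInstance, (Subgroup.commutator_le_left M M).trans hMN, ?_, ?_⟩
    · intro h
      apply hc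
      intro a ha b hb
      have h1 : ⁅a, b⁆ ∈ (⁅M, M⁆ : Subgroup G) := Subgroup.commutator_mem_commutator ha hb
      rw [h, Subgroup.mem_bot, commutatorElement_eq_one_iff_mul_comm] at h1
      exact h1
    · intro a ha b hb
      rw [Subgroup.commutator_def] at ha hb
      refine comm_closure ?_ ha hb
      rintro _ ⟨x, hx, y, hy, rfl⟩ _ ⟨z, hz, u, hu, rfl⟩
      exact hMm x hx y hy z hz u hu

end

end Pool.Agent.H26.PD.PT
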