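import Pool.Agent.H26.PT.Main

/-!
Surface subgroups of subgroups of infinite index.
-/

set_option autoImplicit false
set_option linter.unusedSectionVars false

namespace Pool.Agent.H26.PD.PT

open Pool.Agent.Helper386.PD3 Pool.Agent.H26.PD.PN Pool.Agent.H26.PD.PK Pool.Agent.H26.PD.PS
open scoped Classical Matrix

noncomputable section

/-- cohomological dimension at most `n` -/
def CdLE (n : ℕ) (G : Type) [Group G] : Prop :=
  ∃ (P : ℕ → Type) (_ : ∀ i, AddCommGroup (P i)) (_ : ∀ i, Module (MonoidAlgebra ℤ G) (P i))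
    (d : ∀ i, P (i + 1) →ₗ[MonoidAlgebra ℤ G] P i) (ε : P 0 →+ ℤ),
    (∀ i, Module.Projective (MonoidAlgebra ℤ G) (P i)) ∧
    (∀ i, n < i → Subsingleton (P i)) ∧
    Function.Surjective ε ∧
    (∀ (g : G) (x : P 0), ε (MonoidAlgebra.of ℤ G g • x) = ε x) ∧
    (∀ x : P 0, ε x = 0 ↔ x ∈ LinearMap.range (d 0)) ∧
    (∀ (i : ℕ) (x : P (i + 1)), d i x = 0 ↔ x ∈ LinearMap.range (d (i + 1)))

section family

variable (T : Type) [Group T]

/-- the modules of the resolution -/
def PG : ℕ → Type
  | 0 => RR T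
  | 1 => AI T
  | _ + 2 => PUnit

instance instPGa : ∀ i, AddCommGroup (PG T i)
  | 0 => inferInstanceAs (AddCommGroup (RR T))
  | 1 => inferInstanceAs (AddCommGroup (AI T))
  | _ + 2 => inferInstanceAs (AddCommGroup PUnit)

instance instPGm : ∀ i, Module (RR T) (PG T i)
  | 0 => inferInstanceAs (Module (RR T) (RR T))
  | 1 => inferInstanceAs (Module (RR T) (AI T))
  | _ + 2 => inferInstanceAs (Module (RR T) PUnit)

/-- the differentials -/
def dG : ∀ i, PG T (i + 1) →ₗ[RR T] PG T i
  | 0 => (AI T).subtype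
  | 1 => (0 : PG T 2 →ₗ[RR T] PG T 1)
  | _ + 2 => 0

theorem cdle_one_of_proj (h1 : Module.Projective (RR T) (AI T)) : CdLE 1 T := by
  refine ⟨PG T, inferInstance, inferInstance, dG T, (eps (G := T)).toAddMonoidHom, ?_, ?_, ?_,
    ?_, ?_, ?_⟩
  · intro i
    match i with
    | 0 => exact inferInstanceAs (Module.Projective (RR T) (RR T))
    | 1 => exact h1
    | _ + 2 => exact inferInstanceAs (Module.Projective (RR T) PUnit)
  · intro i hi
    match i, hi with
    | _ + 2, _ => exact inferInstanceAs (Subsingleton PUnit)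
  · intro k
    refine ⟨(k : RR T), ?_⟩
    change eps (k : RR T) = k
    rw [map_intCast]
    rfl
  · intro g (x : RR T)
    change eps (gof g * x) = eps x
    rw [map_mul, eps_of, one_mul]
  · intro x
    change eps x = 0 ↔ x ∈ LinearMap.range (AI T).subtype
    rw [Submodule.range_subtype]
    exact Iff.rfl
  · intro i x
    match i, x with
    | 0, x =>
      change (AI T).subtype x = 0 ↔ x ∈ LinearMap.range (0 : PG T 2 →ₗ[RR T] PG T 1)
      rw [LinearMap.range_zero, Submodule.mem_bot]
      exact map_eq_zero_iff _ (Submodule.subtype_injective _)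
    | 1, x =>
      have hs : Subsingleton (PG T 2) := inferInstanceAs (Subsingleton PUnit)
      constructor
      · intro _
        exact ⟨0, Subsingleton.elim _ _⟩
      · intro _
        rfl
    | i + 2, x =>
      have hs : Subsingleton (PG T (i + 3)) := inferInstanceAs (Subsingleton PUnit)
      constructor
      · intro _
        exact ⟨0, Subsingleton.elim _ _⟩
      · intro _
        rfl

end family

/-- If `H²(S; ℤ[S]) = 0` then the augmentation ideal is projective. -/
theorem proj_of_triv {S : Type} [Group S] {m : ℕ} (h : Fin m → S)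
    (hgen : Subgroup.closure (Set.range h) = ⊤) (DBh : DB h) (hT : Triv h) :
    Module.Projective (RR S) (AI S) := by
  choose c hc using fun l => hT (DBh.φ l)
  -- the projection
  let ret : (Fin m → RR S) →ₗ[RR S] (Fin m → RR S) :=
    { toFun := fun v => ∑ l, (∑ i, v i * c l i) • (DBh.κ l).1
      map_add' := fun x y => by
        simp only [Pi.add_apply, add_mul, Finset.sum_add_distrib, add_smul]
      map_smul' := fun r x => by
        rw [RingHom.id_apply, Finset.smul_sum]
        refine Finset.sum_congr rfl fun l _ => ?_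
        rw [← mul_smul, Finset.mul_sum]
        congr 1
        exact Finset.sum_congr rfl fun i _ => by rw [Pi.smul_apply, smul_eq_mul, mul_assoc] }
  have hretk : ∀ v, bd h (ret v) = 0 := by
    intro v
    change bd h (∑ l, (∑ i, v i * c l i) • (DBh.κ l).1) = 0
    rw [map_sum]
    exact Finset.sum_eq_zero fun l _ => by
      rw [map_smul, LinearMap.mem_ker.1 (DBh.κ l).2, smul_zero]
  have hret : ∀ x, bd h x = 0 → ret x = x := by
    intro x hx
    have h1 := congrArg Subtype.val (DBh.hκ ⟨x, hx⟩)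
    rw [Submodule.coe_sum] at h1
    conv_rhs => rw [show x = (⟨x, hx⟩ : LinearMap.ker (bd h)).1 from rfl, h1]
    change ∑ l, (∑ i, x i * c l i) • (DBh.κ l).1 = _
    refine Finset.sum_congr rfl fun l _ => ?_
    rw [hc]
    rfl
  have hsurj := bdA_surj h hgen
  have hker : LinearMap.ker (bdA h) ≤
      LinearMap.ker ((LinearMap.id : (Fin m → RR S) →ₗ[RR S] (Fin m → RR S)) - ret) := by
    intro x hx
    rw [ker_bdA] at hx
    rw [LinearMap.mem_ker, LinearMap.sub_apply, LinearMap.id_apply, hret x hx, sub_self]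
  let σ : AI S →ₗ[RR S] (Fin m → RR S) := ((LinearMap.ker (bdA h)).liftQ
    ((LinearMap.id : (Fin m → RR S) →ₗ[RR S] (Fin m → RR S)) - ret) hker).comp
    ((bdA h).quotKerEquivOfSurjective hsurj).symm.toLinearMap
  have hσ : ∀ x, σ (bdA h x) = x - ret x := by
    intro x
    change ((LinearMap.ker (bdA h)).liftQ
      ((LinearMap.id : (Fin m → RR S) →ₗ[RR S] (Fin m → RR S)) - ret) hker)
      (((bdA h).quotKerEquivOfSurjective hsurj).symm (bdA h x)) = _
    have h1 : ((bdA h).quotKerEquivOfSurjective hsurj).symm (bdA h x) =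
        (LinearMap.ker (bdA h)).mkQ x := by
      rw [LinearEquiv.symm_apply_eq]
      rfl
    rw [h1]
    rfl
  refine Module.Projective.of_split σ (bdA h) (LinearMap.ext fun y => ?_)
  obtain ⟨x, rfl⟩ := hsurj y
  rw [LinearMap.comp_apply, hσ, LinearMap.id_apply]
  apply Subtype.ext
  change bd h (x - ret x) = bd h x
  rw [map_sub, hretk, sub_zero]

variable {G : Type} [Group G]

/-- **Surface subgroups.** -/
theorem surf {P : ℕ → Type} [∀ i, AddCommGroup (P i)]
    [∀ i, Module (MonoidAlgebra ℤ G) (P i)] {d : ∀ i, P (i + 1) →ₗ[MonoidAlgebra ℤ G] P i}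
    {ε : P 0 →+ ℤ} (hR : Helper158.Reso P d ε) (m : ℕ)
    (hm : ∀ i, m < i → Subsingleton (P i))
    [∀ i, Module.Finite (MonoidAlgebra ℤ G) (P i)]
    [∀ i, Module.Projective (MonoidAlgebra ℤ G) (P i)]
    (hcoh : ∀ i, i ≠ 3 → Subsingleton (groupCohomology (Rep.leftRegular ℤ G) i))
    (htop : Nonempty (groupCohomology (Rep.leftRegular ℤ G) 3 ≃+ ℤ))
    (K : Subgroup G) (hinf : K.index = 0) (N : Subgroup K) [N.FiniteIndex] (hN : Gd N)
    (hK : (∃ S : Subgroup G, S ≤ K ∧ S.FG ∧ ¬ CdLE 1 S) ∨
      ∃ (H : Subgroup G) (χ : H →* Multiplicative ℤ), H.FiniteIndex ∧ χ ≠ 1 ∧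
        χ.ker.map H.subtype ≤ K) :
    ∃ U : Subgroup G, U ≤ K ∧ PD2 U := by
  obtain ⟨w, n, e0, e1, e2, e3, d0, d1, d2, hF, hex2, hex1⟩ := exists_fully hR m hm hcoh htop
  have hOE : OE G := oe_of_H1 (hcoh 1 (by norm_num))
  have hGfg : Group.FG G := fg_of_low hF.low
  have htf : ∀ g : G, g ≠ 1 → ∀ k : ℕ, 0 < k → g ^ k ≠ 1 := by
    intro g hg k hk hgk
    apply hg
    refine Pool.Agent.Q138.PD.torsion_free d ε m inferInstance hm hR.surj hR.equi hR.ex0
      (fun i => ?_) g (isOfFinOrder_iff_pow_eq_one.2 ⟨k, hk, hgk⟩)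
    ext x
    rw [LinearMap.mem_ker]
    exact hR.ex i x
  have hKi : Infinite (G ⧸ K) := by
    rw [← not_finite_iff_infinite]
    intro h
    exact Subgroup.index_ne_zero_of_finite (H := K) hinf
  have hcohK : ∀ T : Subgroup G, T ≤ K → T.FG → ∀ (m : ℕ) (h : Fin m → T),
      Subgroup.closure (Set.range h) = ⊤ → Module.Finite (RR T) (LinearMap.ker (bd h)) := by
    intro T hT hTfg m h hgen
    have : Infinite (G ⧸ T) := infinite_quot hT
    let j : T →* K := Subgroup.inclusion hT
    have hj : Function.Injective j := Subgroup.inclusion_injective hT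
    have hfi : (N.comap j).FiniteIndex := by
      constructor
      rw [Subgroup.index_comap]
      exact Subgroup.FiniteIndex.index_ne_zero (H := N.subgroupOf j.range)
    refine finite_K hF hex2 hOE htf hTfg (N.comap j) (hN.of_inj
      ({ toFun := fun t => ⟨j t.1, t.2⟩
         map_one' := by
          apply Subtype.ext
          exact map_one j
         map_mul' := fun s t => by
          apply Subtype.ext
          exact map_mul j _ _ } : N.comap j →* N) ?_) h hgen
    intro s t hst
    apply Subtype.ext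
    exact hj (congrArg Subtype.val hst)
  obtain ⟨S, k, h, hSK, hgen, hS⟩ : ∃ (S : Subgroup G) (m : ℕ) (h : Fin m → S), S ≤ K ∧
      Subgroup.closure (Set.range h) = ⊤ ∧ ¬ Triv h := by
    rcases hK with ⟨S, hSK, hSfg, hS⟩ | ⟨H, χ, hH, hχ, hle⟩
    · obtain ⟨k, h, hgen⟩ := exists_gens (H := S) ((Group.fg_iff_subgroup_fg S).2 hSfg)
      refine ⟨S, k, h, hSK, hgen, fun hT => hS (cdle_one_of_proj S ?_)⟩
      have : Infinite (G ⧸ S) := infinite_quot hSK
      obtain ⟨DBh⟩ := exists_DB h (hcohK S hSK hSfg k h hgen) (projective_ker hF hex2 h hgen)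
      exact proj_of_triv h hgen DBh hT
    · have : Infinite (G ⧸ kerG χ) := infinite_quot hle
      obtain ⟨S, k, h, hSK, hgen, hS⟩ := exists_not_triv (K := kerG χ) hF hex2 hex1
        (fun T hT hTfg m h hgen => hcohK T (hT.trans hle) hTfg m h hgen)
        (fun k hk x => Fh_left χ k hk x) (Fh_ai χ) (Fh_ne χ hχ)
      exact ⟨S, k, h, hSK.trans hle, hgen, hS⟩
  have : Infinite (G ⧸ S) := infinite_quot hSK
  obtain ⟨U, hU, hPD⟩ := exists_pd2 hF hex2 hex1 htf
    (fun T hT hTfg m h hgen => hcohK T (hT.trans hSK) hTfg m h hgen) h hgen hS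
  exact ⟨U, hU.trans hSK, hPD⟩

end

end Pool.Agent.H26.PD.PT
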