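import Pool.Agent.H26.PT.Asc2
import Pool.Agent.H26.PD.Cyc

/-!
The Tits alternative for finitely generated subgroups of infinite index: the group theoretic part.
-/

set_option autoImplicit false
set_option linter.unusedSectionVars false

namespace Pool.Agent.H26.PD.PT

open Pool.Agent.Helper386.PD3 Pool.Agent.H26.PD.PN Pool.Agent.H26.PD.PK Pool.Agent.H26.PD.PS
open HNNExtension
open scoped Classical commutatorElement

noncomputable section

/-- no free subgroup of rank two -/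
def NoF (L : Type) [Group L] : Prop := ¬ ∃ F : FreeGroup (Fin 2) →* L, Function.Injective F

theorem NoF.of_inj {L L' : Type} [Group L] [Group L'] (h : NoF L') (j : L →* L')
    (hj : Function.Injective j) : NoF L :=
  fun ⟨F, hF⟩ => h ⟨j.comp F, hj.comp hF⟩

theorem oev_or_cyclic {L : Type} [Group L] (hfg : Group.FG L)
    (htf : ∀ g : L, g ≠ 1 → ∀ k : ℤ, k ≠ 0 → g ^ k ≠ 1) (hno : NoF L) :
    OEV L ∨ ∃ g : L, ∀ x, ∃ k : ℤ, x = g ^ k := by
  by_cases hO : OEV L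
  · exact Or.inl hO
  right
  unfold OEV at hO
  push Not at hO
  obtain ⟨V, F, h1, h2⟩ := hO
  rcases ends_dichotomy hfg F h1 h2 with h | ⟨h, hh, T, hT, hTc⟩
  · exact absurd h hno
  · exact cyclic_of_virt htf (fun a b => comm_of_virt htf hh hT hTc a b) hT hTc

theorem FGK.ker {T : Type} [Group T] (hT : FGK T) {m : ℕ} (h : Fin m → T)
    (hgen : Subgroup.closure (Set.range h) = ⊤) :
    Module.Finite (RR T) (LinearMap.ker (bd h)) := by
  have := hT.fp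
  rw [Module.Finite.iff_fg, ← ker_bdA]
  exact Module.FinitePresentation.fg_ker (bdA h) (bdA_surj h hgen)

variable {S : Type} [Group S]

theorem comm_ker (χ : S →* Multiplicative ℤ) (t : S) (B : Subgroup S)
    (hB : ∀ x ∈ B, t * x * t⁻¹ ∈ B) (h2 : ∀ g, χ g = 1 → ∃ k : ℕ, t ^ k * g * (t ^ k)⁻¹ ∈ B)
    (hc : ∀ a ∈ B, ∀ b ∈ B, a * b = b * a) (a b : S) (ha : χ a = 1) (hb : χ b = 1) :
    a * b = b * a := by
  have hmono : ∀ (k l : ℕ) (g : S), t ^ k * g * (t ^ k)⁻¹ ∈ B →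
      t ^ (l + k) * g * (t ^ (l + k))⁻¹ ∈ B := by
    intro k l
    induction l with
    | zero => intro g hg; rwa [zero_add]
    | succ l ih =>
      intro g hg
      have h1 := hB _ (ih g hg)
      have e : t * (t ^ (l + k) * g * (t ^ (l + k))⁻¹) * t⁻¹ =
          t ^ (l + 1 + k) * g * (t ^ (l + 1 + k))⁻¹ := by
        rw [show l + 1 + k = (l + k) + 1 by omega, pow_succ']
        group
      rwa [e] at h1
  obtain ⟨k, hk⟩ := h2 a ha
  obtain ⟨l, hl⟩ := h2 b hb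
  have h3 := hmono k l a hk
  have h4 := hmono l k b hl
  rw [add_comm k l] at h4
  have h5 := hc _ h3 _ h4
  have e1 : ∀ x y : S, t ^ (l + k) * x * (t ^ (l + k))⁻¹ * (t ^ (l + k) * y * (t ^ (l + k))⁻¹) =
      t ^ (l + k) * (x * y) * (t ^ (l + k))⁻¹ := by intro x y; group
  rw [e1, e1] at h5
  exact mul_left_cancel (mul_right_cancel h5)

/-- a homomorphism onto `ℤ` from a nontrivial one -/
theorem exists_surj (χ : S →* Multiplicative ℤ) (hχ : χ ≠ 1) :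
    ∃ (χ' : S →* Multiplicative ℤ) (t : S), χ' t = Multiplicative.ofAdd 1 := by
  let R : AddSubgroup ℤ :=
    { carrier := {z | ∃ s, (χ s).toAdd = z}
      zero_mem' := ⟨1, by rw [map_one]; rfl⟩
      add_mem' := by
        rintro _ _ ⟨a, rfl⟩ ⟨b, rfl⟩
        exact ⟨a * b, by rw [map_mul, toAdd_mul]⟩
      neg_mem' := by
        rintro _ ⟨a, rfl⟩
        exact ⟨a⁻¹, by rw [map_inv, toAdd_inv]⟩ }
  obtain ⟨d, hd⟩ := Int.subgroup_cyclic R
  have hdR : ∀ s, ∃ k : ℤ, (χ s).toAdd = k * d := by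
    intro s
    have h1 : (χ s).toAdd ∈ R := ⟨s, rfl⟩
    rw [hd, AddSubgroup.mem_closure_singleton] at h1
    obtain ⟨k, hk⟩ := h1
    exact ⟨k, by rw [← hk, smul_eq_mul]⟩
  have hd0 : d ≠ 0 := by
    rintro rfl
    apply hχ
    ext s
    obtain ⟨k, hk⟩ := hdR s
    rw [mul_zero] at hk
    exact toAdd_eq_zero.1 hk
  choose k hk using hdR
  obtain ⟨t, ht⟩ : d ∈ R := by
    rw [hd]
    exact AddSubgroup.subset_closure rfl
  refine ⟨{ toFun := fun s => Multiplicative.ofAdd (k s)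
            map_one' := ?_
            map_mul' := ?_ }, t, ?_⟩
  · have h1 := hk 1
    rw [map_one, toAdd_one, eq_comm, mul_eq_zero] at h1
    rw [h1.resolve_right hd0]
    rfl
  · intro a b
    have h1 := hk (a * b)
    rw [map_mul, toAdd_mul, hk a, hk b, ← add_mul] at h1
    rw [← ofAdd_add, mul_right_cancel₀ hd0 h1]
  · have h1 := hk t
    rw [ht] at h1
    have h2 : k t = 1 := by
      have h3 : (1 : ℤ) * d = k t * d := by rw [one_mul]; exact h1
      exact (mul_right_cancel₀ hd0 h3).symm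
    change Multiplicative.ofAdd (k t) = _
    rw [h2]

theorem eq_one_of_finite {L : Type} [Group L] [Finite L]
    (htf : ∀ g : L, g ≠ 1 → ∀ k : ℤ, k ≠ 0 → g ^ k ≠ 1) (g : L) : g = 1 := by
  by_contra hne
  obtain ⟨n, hn, hn'⟩ := isOfFinOrder_iff_pow_eq_one.1 (isOfFinOrder_of_finite g)
  exact htf g hne n (by omega) (by rw [zpow_natCast]; exact hn')

/-- The base group is cyclic. -/
theorem base_cyclic (htf : ∀ g : S, g ≠ 1 → ∀ k : ℤ, k ≠ 0 → g ^ k ≠ 1) (hno : NoF S)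
    (hcoh : ∀ B : Subgroup S, B.FG → FGK B)
    (hproj : ∀ (m : ℕ) (h : Fin m → S), Subgroup.closure (Set.range h) = ⊤ →
      Module.Projective (RR S) (LinearMap.ker (bd h))) [Infinite S] (hO : OEV S)
    (χ : S →* Multiplicative ℤ) (t : S) (ht : χ t = Multiplicative.ofAdd 1) (B : Subgroup S)
    (hB : ∀ x ∈ B, t * x * t⁻¹ ∈ B) (hBχ : B ≤ χ.ker) (hBfg : B.FG)
    (hgen : Subgroup.closure (insert t (B : Set S)) = ⊤) (hacy : Acy t B) :
    ∃ g : B, ∀ x, ∃ k : ℤ, x = g ^ k := by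
  have hBfg' : Group.FG B := (Group.fg_iff_subgroup_fg B).2 hBfg
  have htfB : ∀ g : B, g ≠ 1 → ∀ k : ℤ, k ≠ 0 → g ^ k ≠ 1 := by
    intro g hg k hk h
    exact htf g (fun h1 => hg (Subtype.ext h1)) k hk (by
      have := congrArg Subtype.val h
      simpa using this)
  rcases finite_or_infinite B with hfin | hinf
  · exact ⟨1, fun x => ⟨0, by rw [zpow_zero]; exact eq_one_of_finite htfB x⟩⟩
  rcases oev_or_cyclic hBfg' htfB (hno.of_inj B.subtype B.subtype_injective) with hBO | h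
  swap
  · exact h
  exfalso
  obtain ⟨k, b, hb⟩ := exists_gens (H := B) hBfg'
  have hgenS : Subgroup.closure (Set.range (hh t B b)) = ⊤ := by
    rw [eq_top_iff, ← hgen, Subgroup.closure_le]
    rintro x (rfl | hx)
    · exact Subgroup.subset_closure ⟨0, rfl⟩
    · have h1 : (⟨x, hx⟩ : B) ∈ Subgroup.closure (Set.range b) := by rw [hb]; trivial
      have h2 : x ∈ (Subgroup.closure (Set.range b)).map B.subtype := ⟨_, h1, rfl⟩
      rw [MonoidHom.map_closure] at h2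
      refine (Subgroup.closure_mono ?_) h2
      rintro _ ⟨_, ⟨i, rfl⟩, rfl⟩
      exact ⟨i.succ, rfl⟩
  have hSK : FGK S := (hcoh ⊤ (by
    rw [← hgenS, Subgroup.fg_iff]
    exact ⟨_, rfl, Set.finite_range _⟩)).equiv Subgroup.topEquiv
  obtain ⟨DBh⟩ := exists_DB _ (FGK.ker hSK _ hgenS) (hproj _ _ hgenS)
  exact base_not_oev χ t B b ht hB hBχ hb hgenS (FGK.ker (hcoh B hBfg) b hb) hacy
    (oed_of_oev _ hgenS hO) DBh hBO

/-- free subgroups of HNN extensions which are not ascending -/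
theorem free_case (t : S) (B : Subgroup S) (hacy : Acy t B) {x y : S} (hx : x ∈ B)
    (hx' : t * x * t⁻¹ ∉ B) (hy : y ∈ B) (hy' : t⁻¹ * y * t ∉ B) :
    ∃ F : FreeGroup (Fin 2) →* S, Function.Injective F ∧
      ∀ (χ : S →* Multiplicative ℤ), B ≤ χ.ker → ∀ w, F w ∈ χ.ker := by
  have h1 := free_of_hnn (cj t B) ⟨x, hx⟩ ⟨y, hy⟩ (by
    rw [mem_A0]
    exact hx') (by
    rw [mem_A0, inv_inv]
    exact hy')
  refine ⟨(pi t _).comp (FreeGroup.lift (gen (cj t B) ⟨x, hx⟩ ⟨y, hy⟩)), (pi_inj hacy).comp h1,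
    fun χ hle => ?_⟩
  have hxχ : χ x = 1 := hle hx
  have hyχ : χ y = 1 := hle hy
  intro w
  have : χ.comp ((pi t _).comp (FreeGroup.lift (gen (cj t B) ⟨x, hx⟩ ⟨y, hy⟩))) = 1 := by
    ext i
    simp only [MonoidHom.comp_apply, FreeGroup.lift_apply_of, MonoidHom.one_apply]
    fin_cases i
    · simp [gen, pi_t, pi_of, hxχ, hyχ]
    · simp [gen, pi_t, pi_of, hxχ, hyχ]
  exact congrArg (fun F : FreeGroup (Fin 2) →* Multiplicative ℤ => F w) this

/-- **The theorem of Bieri and Strebel** for groups with finitely generated second syzygy. -/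
theorem bs_fgk (hS : FGK S) (χ : S →* Multiplicative ℤ) (t : S)
    (ht : χ t = Multiplicative.ofAdd 1) :
    (∃ F : FreeGroup (Fin 2) →* χ.ker, Function.Injective F) ∨
    ∃ B : Subgroup S, B.FG ∧ B ≤ χ.ker ∧ Acy t B ∧
      Subgroup.closure (insert t (B : Set S)) = ⊤ ∧
      (((∀ x ∈ B, t * x * t⁻¹ ∈ B) ∧ ∀ g, χ g = 1 → ∃ k : ℕ, t ^ k * g * (t ^ k)⁻¹ ∈ B) ∨
      ((∀ x ∈ B, t⁻¹ * x * t ∈ B) ∧ ∀ g, χ g = 1 → ∃ k : ℕ, (t ^ k)⁻¹ * g * t ^ k ∈ B)) := by
  obtain ⟨n, h, hgen, -⟩ := id hS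
  let a : Fin n → S := fun i => h i * t ^ (-(χ (h i)).toAdd)
  have ha : ∀ i, χ (a i) = 1 := by
    intro i
    change χ (h i * t ^ (-(χ (h i)).toAdd)) = 1
    rw [map_mul, map_zpow, ht, ← ofAdd_zsmul]
    simp
  have hgen' : Subgroup.closure (Set.range (Fin.cons t a : Fin (n + 1) → S)) = ⊤ := by
    rw [eq_top_iff, ← hgen, Subgroup.closure_le]
    rintro _ ⟨i, rfl⟩
    have h1 : a i ∈ Subgroup.closure (Set.range (Fin.cons t a : Fin (n + 1) → S)) :=
      Subgroup.subset_closure ⟨i.succ, rfl⟩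
    have h2 : t ∈ Subgroup.closure (Set.range (Fin.cons t a : Fin (n + 1) → S)) :=
      Subgroup.subset_closure ⟨0, rfl⟩
    have h3 : h i = a i * t ^ (χ (h i)).toAdd := by
      change h i = h i * t ^ (-(χ (h i)).toAdd) * t ^ (χ (h i)).toAdd
      group
    change h i ∈ _
    rw [h3]
    exact mul_mem h1 (zpow_mem h2 _)
  obtain ⟨M, hM⟩ := exists_acy χ t ht a ha hgen' (FGK.ker hS _ hgen')
  have hacy := hM M le_rfl
  have hle : Bs t a M ≤ χ.ker := by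
    rw [Bs, Subgroup.closure_le]
    rintro g ⟨i, j, -, rfl⟩
    change χ _ = 1
    rw [map_mul, map_mul, ha, map_zpow, map_zpow, zpow_neg]
    simp
  have hgenB : Subgroup.closure (insert t (Bs t a M : Set S)) = ⊤ := by
    rw [eq_top_iff, ← hgen', Subgroup.closure_le]
    rintro _ ⟨i, rfl⟩
    refine Fin.cases ?_ (fun i => ?_) i
    · exact Subgroup.subset_closure (Set.mem_insert _ _)
    · exact Subgroup.subset_closure (Set.mem_insert_of_mem _
        (Bs_mono t a (Nat.zero_le M) (mem_Bs_zero t a i)))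
  by_cases hA : ∀ x ∈ Bs t a M, t * x * t⁻¹ ∈ Bs t a M
  · right
    refine ⟨Bs t a M, Bs_fg _ _ _, hle, hacy, hgenB, Or.inl ⟨hA, fun g hg => ?_⟩⟩
    obtain ⟨N, hN⟩ := mem_Bs χ t ht a ha hgen' g hg
    exact ⟨N, push t _ hA hN⟩
  by_cases hB : ∀ x ∈ Bs t a M, t⁻¹ * x * t ∈ Bs t a M
  · right
    refine ⟨Bs t a M, Bs_fg _ _ _, hle, hacy, hgenB, Or.inr ⟨hB, fun g hg => ?_⟩⟩
    obtain ⟨N, hN⟩ := mem_Bs χ t ht a ha hgen' g hg
    exact ⟨N, push' t _ hB hN⟩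
  left
  push Not at hA hB
  obtain ⟨x, hx, hx'⟩ := hA
  obtain ⟨y, hy, hy'⟩ := hB
  obtain ⟨F, hF, hFk⟩ := free_case t _ hacy hx hx' hy hy'
  exact ⟨F.codRestrict _ (hFk χ hle), fun a b h => hF (congrArg Subtype.val h)⟩

/-- **The Tits alternative**, abstract version. -/
theorem metab (htf : ∀ g : S, g ≠ 1 → ∀ k : ℤ, k ≠ 0 → g ^ k ≠ 1) (hno : NoF S)
    (hcoh : ∀ B : Subgroup S, B.FG → FGK B)
    (hproj : ∀ (m : ℕ) (h : Fin m → S), Subgroup.closure (Set.range h) = ⊤ →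
      Module.Projective (RR S) (LinearMap.ker (bd h))) (hfg : Group.FG S)
    (hind : (∃ s : S, s ≠ 1) → ∃ χ : S →* Multiplicative ℤ, χ ≠ 1) (a b c d : S) :
    ⁅a, b⁆ * ⁅c, d⁆ = ⁅c, d⁆ * ⁅a, b⁆ := by
  rcases finite_or_infinite S with hfin | hinf
  · rw [eq_one_of_finite htf ⁅a, b⁆, one_mul, mul_one]
  rcases oev_or_cyclic hfg htf hno with hO | ⟨g, hg⟩
  swap
  · obtain ⟨k, hk⟩ := hg ⁅a, b⁆
    obtain ⟨l, hl⟩ := hg ⁅c, d⁆
    rw [hk, hl]
    exact (Commute.refl g).zpow_zpow k l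
  obtain ⟨s, hs⟩ := exists_ne (1 : S)
  obtain ⟨χ0, hχ0⟩ := hind ⟨s, hs⟩
  obtain ⟨χ, t, ht⟩ := exists_surj χ0 hχ0
  have hχc : ∀ x y : S, χ ⁅x, y⁆ = 1 := by
    intro x y
    rw [map_commutatorElement, commutatorElement_eq_one_iff_mul_comm, mul_comm]
  have hSK : FGK S := (hcoh ⊤ (Group.fg_def.1 hfg)).equiv Subgroup.topEquiv
  rcases bs_fgk hSK χ t ht with ⟨F, hF⟩ | ⟨B, hBfg, hBχ, hacy, hgenB, ⟨hB, h2⟩ | ⟨hB, h2⟩⟩
  · exact absurd ⟨χ.ker.subtype.comp F, χ.ker.subtype_injective.comp hF⟩ hno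
  · obtain ⟨g, hg⟩ := base_cyclic htf hno hcoh hproj hO χ t ht B hB hBχ hBfg hgenB hacy
    refine comm_ker χ t B hB h2 ?_ _ _ (hχc a b) (hχc c d)
    intro x hx y hy
    obtain ⟨k, hk⟩ := hg ⟨x, hx⟩
    obtain ⟨l, hl⟩ := hg ⟨y, hy⟩
    have h3 : (⟨x, hx⟩ : B) * ⟨y, hy⟩ = ⟨y, hy⟩ * ⟨x, hx⟩ := by
      rw [hk, hl]
      exact (Commute.refl g).zpow_zpow k l
    exact congrArg Subtype.val h3
  · have hk : χ⁻¹.ker = χ.ker := by
      ext x
      rw [MonoidHom.mem_ker, MonoidHom.mem_ker, MonoidHom.inv_apply, inv_eq_one]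
    have ht' : χ⁻¹ t⁻¹ = Multiplicative.ofAdd 1 := by
      rw [MonoidHom.inv_apply, map_inv, inv_inv, ht]
    have hgenB' : Subgroup.closure (insert t⁻¹ (B : Set S)) = ⊤ := by
      rw [eq_top_iff, ← hgenB, Subgroup.closure_le]
      rintro x (rfl | hx)
      · have h3 : x⁻¹ ∈ Subgroup.closure (insert x⁻¹ (B : Set S)) :=
          Subgroup.subset_closure (Set.mem_insert _ _)
        have h4 := inv_mem h3
        rwa [inv_inv] at h4
      · exact Subgroup.subset_closure (Set.mem_insert_of_mem _ hx)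
    have hB' : ∀ x ∈ B, t⁻¹ * x * t⁻¹⁻¹ ∈ B := fun x hx => by
      rw [inv_inv]
      exact hB x hx
    obtain ⟨g, hg⟩ := base_cyclic htf hno hcoh hproj hO χ⁻¹ t⁻¹ ht' B hB' (hk ▸ hBχ) hBfg hgenB'
      hacy.symm
    refine comm_ker χ⁻¹ t⁻¹ B hB' (fun g hg => ?_) ?_ _ _ ?_ ?_
    · obtain ⟨k, hk'⟩ := h2 g (by
        rw [MonoidHom.inv_apply, inv_eq_one] at hg
        exact hg)
      refine ⟨k, ?_⟩
      rwa [inv_pow, inv_inv]
    · intro x hx y hy
      obtain ⟨k, hk⟩ := hg ⟨x, hx⟩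
      obtain ⟨l, hl⟩ := hg ⟨y, hy⟩
      have h3 : (⟨x, hx⟩ : B) * ⟨y, hy⟩ = ⟨y, hy⟩ * ⟨x, hx⟩ := by
        rw [hk, hl]
        exact (Commute.refl g).zpow_zpow k l
      exact congrArg Subtype.val h3
    · rw [MonoidHom.inv_apply, hχc, inv_one]
    · rw [MonoidHom.inv_apply, hχc, inv_one]

end

end Pool.Agent.H26.PD.PT
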